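import Pool.Agent.Helper51.LCY.P2

/-!
Step 1 of MP_f7e214_ag: the case `c > 0` of a minimal ruled structure.
-/

open Polynomial

namespace LCY

noncomputable section

variable {L : Type} [Field L] [Algebra ℂ L] {N : ℕ}

/-- The function `x i` has the least value at `v`. -/
def XMin (x : Fin (N + 1) → L) (v : DVal L) (i : Fin (N + 1)) : Prop :=
  x i ≠ 0 ∧ ∀ j, v.Int (x j / x i)

/-- Normality, for the model defined by the linear system `x`. -/
def NR (x : Fin (N + 1) → L) : Prop :=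
  ∀ (i : Fin (N + 1)) (h : L), (∀ v : DVal L, ¬ Contracted x v → XMin x v i → v.Int h) →
    ∀ v : DVal L, XMin x v i → v.Int h ∧ (Contracted x v → ∃ c : ℂ, v.Pos (h - algebraMap ℂ L c))

theorem exists_xmin {x : Fin (N + 1) → L} (hx : ∃ i, x i ≠ 0) (v : DVal L) : ∃ i, XMin x v i := by
  classical
  obtain ⟨i0, hi0⟩ := hx
  obtain ⟨i, hi, hmin⟩ := (Finset.univ.filter fun i => x i ≠ 0).exists_min_image
    (fun i => v.v (x i)) ⟨i0, by simp [hi0]⟩
  rw [Finset.mem_filter] at hi
  refine ⟨i, hi.2, fun j => ?_⟩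
  by_cases hj : x j = 0
  · left; rw [hj, zero_div]
  · right
    have := hmin j (by simp [hj])
    rw [v.map_div hj hi.2]; omega

/-- The place `v` is trivial on the rational functions of `s`. -/
def Hor (s : L) (v : DVal L) : Prop := ∀ p : ℂ[X], p ≠ 0 → v.v (aeval s p) = 0

theorem DVal.v_sub_const_ge (v : DVal L) {s : L} (hs : s ≠ 0) (c : ℂ)
    (hsc : s - algebraMap ℂ L c ≠ 0) :
    - max 0 (- v.v s) ≤ v.v (s - algebraMap ℂ L c) := by
  by_cases hc : c = 0
  · rw [hc, map_zero, sub_zero]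
    have := le_max_right 0 (-v.v s)
    omega
  · have h0 : -algebraMap ℂ L c ≠ 0 := by
      rw [neg_ne_zero]
      intro h
      exact hc (by rwa [map_eq_zero] at h)
    have h1 := v.map_add s (-algebraMap ℂ L c) hs h0 (by rwa [← sub_eq_add_neg])
    rw [← sub_eq_add_neg] at h1
    have h2 : v.v (-algebraMap ℂ L c) = 0 := by
      rw [v.map_neg (by rwa [neg_ne_zero] at h0)]; exact v.map_const _ hc
    rw [h2] at h1
    rcases le_total 0 (v.v s) with h | h
    · rw [max_eq_left (by omega)]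
      rw [min_eq_right h] at h1
      omega
    · rw [max_eq_right (by omega)]
      rw [min_eq_left h] at h1
      omega

/-- A minimal ruled structure with `c > 0`: every horizontal place has weight `-1`, or it is
non-contracted of weight `0`. -/
theorem row_1e (ω : Bracket L) (x : Fin (N + 1) → L) (hx : ∃ i, x i ≠ 0)
    (H1 : ∀ v k, ω.Wt v k → -1 ≤ k) (H2 : ∀ v k, ω.Wt v k → ¬ Contracted x v → k ≤ 0)
    (hW : ∀ v, ∃ k, ω.Wt v k) (hNR : NR x) (P : Coord L) (hbr : ω.br P.x P.y ≠ 0) (q : L)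
    (hq : q ≠ 0) (d M : ℕ) (hd : 0 < d) (hM : 0 < M)
    (hθ : ∀ v k i, ω.Wt v k → XMin x v i → (M : ℤ) * max 0 (- v.v P.x) ≤
      d * (v.v (ω.br P.x P.y) + k) - 2 * (v.v q + v.v (x i)))
    (hθ0 : ∀ v k i, ω.Wt v k → XMin x v i → Hor P.x v →
      d * (v.v (ω.br P.x P.y) + k) - 2 * (v.v q + v.v (x i)) = 0)
    (v : DVal L) (hv : Hor P.x v) (k : ℤ) (hk : ω.Wt v k) :
    k = -1 ∨ (k = 0 ∧ ¬ Contracted x v) := by
  by_cases hc : Contracted x v
  swap
  · have h1 := H1 v k hk
    have h2 := H2 v k hk hc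
    rcases (show k = -1 ∨ k = 0 by omega) with h | h
    · exact Or.inl h
    · exact Or.inr ⟨h, hc⟩
  left
  obtain ⟨i, hi⟩ := exists_xmin hx v
  have hs : ∀ c : ℂ, P.x - algebraMap ℂ L c ≠ 0 := by
    intro c h
    have h1 := P.trans_x (p := X - C c) (X_sub_C_ne_zero c)
    rw [_root_.map_sub, aeval_X, aeval_C] at h1
    exact h1 h
  have hqi : q * x i ≠ 0 := mul_ne_zero hq hi.1
  -- the functions
  set φ : ℂ → L := fun b => ω.br P.x P.y ^ d * (P.x - algebraMap ℂ L b) ^ M / (q * x i) ^ 2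
    with hφ
  have hφne : ∀ b, φ b ≠ 0 := fun b =>
    div_ne_zero (mul_ne_zero (pow_ne_zero _ hbr) (pow_ne_zero _ (hs b))) (pow_ne_zero _ hqi)
  have hφv : ∀ (b : ℂ) (w : DVal L), w.v (φ b) = d * w.v (ω.br P.x P.y) +
      M * w.v (P.x - algebraMap ℂ L b) - 2 * (w.v q + w.v (x i)) := by
    intro b w
    rw [hφ]
    dsimp only
    rw [w.map_div (mul_ne_zero (pow_ne_zero _ hbr) (pow_ne_zero _ (hs b))) (pow_ne_zero _ hqi),
      w.map_mul _ _ (pow_ne_zero _ hbr) (pow_ne_zero _ (hs b)), w.map_pow hbr, w.map_pow (hs b),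
      w.map_pow hqi, w.map_mul _ _ hq hi.1]
    push_cast; ring
  have hint : ∀ b, ∀ w : DVal L, ¬ Contracted x w → XMin x w i → w.Int (φ b) := by
    intro b w hw hwi
    right
    obtain ⟨k', hk'⟩ := hW w
    have h1 := hθ w k' i hk' hwi
    have h2 := H2 w k' hk' hw
    have h3 := w.v_sub_const_ge P.x_ne b (hs b)
    rw [hφv]
    have h4 : (M : ℤ) * (-max 0 (-w.v P.x)) ≤ M * w.v (P.x - algebraMap ℂ L b) :=
      mul_le_mul_of_nonneg_left h3 (by positivity)
    have h5 : (d : ℤ) * k' ≤ 0 := mul_nonpos_of_nonneg_of_nonpos (by positivity) h2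
    nlinarith [h1, h4, h5]
  have hNRb := fun b => hNR i (φ b) (hint b) v hi
  have hθv := hθ0 v k i hk hi hv
  have hvb : ∀ b : ℂ, v.v (P.x - algebraMap ℂ L b) = 0 := by
    intro b
    have h1 := hv (X - C b) (X_sub_C_ne_zero b)
    rwa [_root_.map_sub, aeval_X, aeval_C] at h1
  have hval : ∀ b, v.v (φ b) = - (d * k) := by
    intro b
    rw [hφv, hvb]
    linarith
  have hk0 : k ≤ 0 := by
    have h1 := (hNRb 0).1.resolve_left (hφne 0)
    rw [hval] at h1
    by_contra hcon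
    push Not at hcon
    have : (0 : ℤ) < d * k := mul_pos (by exact_mod_cast hd) hcon
    omega
  have h1 := H1 v k hk
  by_contra hne
  have hk0' : k = 0 := by omega
  subst hk0'
  have hval0 : ∀ b, v.v (φ b) = 0 := fun b => by rw [hval]; ring
  have hcb : ∀ b, ∃ c : ℂ, c ≠ 0 ∧ v.Pos (φ b - algebraMap ℂ L c) := by
    intro b
    obtain ⟨c, hcc⟩ := (hNRb b).2 hc
    refine ⟨c, ?_, hcc⟩
    intro h0
    rw [h0, map_zero, sub_zero] at hcc
    rcases hcc with h | h
    · exact hφne b h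
    · rw [hval0] at h; omega
  obtain ⟨c0, hc0, hp0⟩ := hcb 0
  obtain ⟨c1, hc1, hp1⟩ := hcb 1
  -- the contradiction
  set p : ℂ[X] := C c0 * (X - C 1) ^ M - C c1 * X ^ M with hp
  have hpne : p ≠ 0 := by
    intro h
    have h2 := congrArg (Polynomial.eval 0) h
    rw [hp] at h2
    simp only [eval_sub, eval_mul, eval_C, eval_pow, eval_X, eval_zero] at h2
    rw [zero_pow hM.ne', mul_zero, sub_zero] at h2
    rcases mul_eq_zero.1 h2 with h3 | h3
    · exact hc0 h3
    · exact absurd h3 (pow_ne_zero _ (by norm_num))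
  have h2 := hv p hpne
  have hIs : v.Int P.x := Or.inr (by
    have := hvb 0
    rw [map_zero, sub_zero] at this
    omega)
  have hIs1 : v.Int (P.x - algebraMap ℂ L 1) := Or.inr (by rw [hvb])
  have h3 : v.Pos (aeval P.x p) := by
    have e0 : φ 0 * (P.x - algebraMap ℂ L 1) ^ M = φ 1 * P.x ^ M := by
      rw [hφ]
      dsimp only
      rw [map_zero, sub_zero]
      ring
    have e1 : aeval P.x p = -((φ 0 - algebraMap ℂ L c0) * (P.x - algebraMap ℂ L 1) ^ M) +
        (φ 1 - algebraMap ℂ L c1) * P.x ^ M := by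
      have e2 : aeval P.x p = algebraMap ℂ L c0 * (P.x - algebraMap ℂ L 1) ^ M -
          algebraMap ℂ L c1 * P.x ^ M := by
        rw [hp]
        simp only [_root_.map_sub, _root_.map_mul, _root_.map_pow, aeval_X, aeval_C]
      rw [e2]
      linear_combination e0
    rw [e1]
    exact v.pos_add (v.pos_neg (v.pos_mul_int hp0 (v.int_pow hIs1 _)))
      (v.pos_mul_int hp1 (v.int_pow hIs _))
  rcases h3 with h4 | h4
  · exact P.trans_x hpne h4
  · omega

end

end LCY
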