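import Pool.Agent.Helper2.LCY.E1
import Pool.Agent.Helper48.LCY.Top

/-!
Step 1 of MP_f7e214_ag: rulings defined by pairs of coordinates.
-/

open Polynomial

namespace LCY

noncomputable section

variable {L : Type} [Field L] [Algebra ℂ L] {N : ℕ}

theorem H2.trdeg_simple {s : L} (hs : ∀ p : ℂ[X], p ≠ 0 → aeval s p ≠ 0) :
    Algebra.trdeg ℂ (IntermediateField.adjoin ℂ {s}) = 1 := by
  set E := IntermediateField.adjoin ℂ {s} with hE
  let s' : E := ⟨s, IntermediateField.mem_adjoin_simple_self ℂ s⟩
  have htr : Transcendental ℂ s' := by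
    rintro ⟨p, hp, h⟩
    apply hs p hp
    have h1 := congrArg (algebraMap E L) h
    rw [map_zero, ← aeval_algebraMap_apply] at h1
    exact h1
  apply le_antisymm
  · have halg : Algebra.IsAlgebraic (Algebra.adjoin ℂ {s'}) E := by
      refine ⟨fun z => ?_⟩
      obtain ⟨z, hz⟩ := z
      obtain ⟨r, t, hrt⟩ := (IntermediateField.mem_adjoin_simple_iff ℂ z).1 hz
      have hmem : ∀ p : ℂ[X], aeval s' p ∈ Algebra.adjoin ℂ {s'} := fun p =>
        Polynomial.aeval_mem_adjoin_singleton ℂ s'
      have h1 : (⟨z, hz⟩ : E) = aeval s' r / aeval s' t := by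
        apply Subtype.ext
        show z = _
        have h2 : ∀ p : ℂ[X], ((aeval s' p : E) : L) = aeval s p := by
          intro p
          have := (aeval_algebraMap_apply L s' p)
          exact this.symm
        rw [hrt]
        push_cast
        rw [h2, h2]
      rw [h1, div_eq_mul_inv]
      have h3 : IsAlgebraic (Algebra.adjoin ℂ {s'})
          (algebraMap (Algebra.adjoin ℂ {s'}) E ⟨aeval s' r, hmem r⟩) := isAlgebraic_algebraMap _
      have h4 : IsAlgebraic (Algebra.adjoin ℂ {s'})
          (algebraMap (Algebra.adjoin ℂ {s'}) E ⟨aeval s' t, hmem t⟩) := isAlgebraic_algebraMap _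
      exact h3.mul h4.inv
    have := Algebra.IsAlgebraic.trdeg_le_cardinalMk ℂ ({s'} : Set E)
    rwa [Cardinal.mk_singleton] at this
  · have hind : AlgebraicIndependent ℂ (fun _ : Unit => s') := by
      rw [algebraicIndependent_unique_type_iff]
      exact htr
    have := hind.cardinalMk_le_trdeg
    simpa using this

theorem H2.isRuling (P : Coord L) : IsRuling (IntermediateField.adjoin ℂ {P.x}) P.y := by
  refine ⟨H2.trdeg_simple fun p hp => P.trans_x hp, ?_⟩
  rw [eq_top_iff]
  intro z _
  obtain ⟨f, g, hg, rfl⟩ := P.surj z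
  have hmem : ∀ f : ℂ[X][X], ev P.x P.y f ∈
      IntermediateField.adjoin (IntermediateField.adjoin ℂ {P.x}) {P.y} := by
    intro f
    have hx : P.x ∈ IntermediateField.adjoin (IntermediateField.adjoin ℂ {P.x}) {P.y} := by
      have := (IntermediateField.adjoin (IntermediateField.adjoin ℂ {P.x}) {P.y}).algebraMap_mem
        ⟨P.x, IntermediateField.mem_adjoin_simple_self ℂ P.x⟩
      exact this
    have hy : P.y ∈ IntermediateField.adjoin (IntermediateField.adjoin ℂ {P.x}) {P.y} :=
      IntermediateField.mem_adjoin_simple_self _ P.y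
    have hc : ∀ c : ℂ, algebraMap ℂ L c ∈
        IntermediateField.adjoin (IntermediateField.adjoin ℂ {P.x}) {P.y} := by
      intro c
      have := (IntermediateField.adjoin (IntermediateField.adjoin ℂ {P.x}) {P.y}).algebraMap_mem
        (algebraMap ℂ (IntermediateField.adjoin ℂ {P.x}) c)
      exact this
    rw [ev_eq_sum]
    exact sum_mem fun e _ => mul_mem (mul_mem (hc _) (pow_mem hx _)) (pow_mem hy _)
  exact div_mem (hmem f) (hmem g)

theorem H2.hor_of_horiz (P : Coord L) {v : DVal L}
    (h : Horiz (IntermediateField.adjoin ℂ {P.x}) v) : Hor P.x v := by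
  intro p hp
  refine h _ ?_ (P.trans_x hp)
  exact (IntermediateField.mem_adjoin_simple_iff ℂ _).2 ⟨p, 1, by simp⟩

/-- Conic bundles with rational base. -/
theorem H2.fam_of_hor (hCB : ST_CB) (ω : Bracket L) (x : Fin (N + 1) → L) (hA : Adm ω x)
    (P : Coord L) (h : ∀ (v : DVal L) (k : ℤ), Hor P.x v → ω.Wt v k →
      k = -1 ∨ (k = 0 ∧ ¬ Contracted x v)) : Fam ω x :=
  hCB L N ω x hA _ P.y (H2.isRuling P) fun v k hv hk => h v k (H2.hor_of_horiz P hv) hk

theorem H2.nr_of (hNR : ST_NR) (ω : Bracket L) (x : Fin (N + 1) → L) (hA : Adm ω x) : NR x := by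
  intro i h hh v hv
  exact (hNR L N x hA.fg hA.trdeg i hv.1 (hA.alg i hv.1)).1 h
    (fun w hw hw2 => hh w hw ⟨hv.1, hw2⟩) v hv.2

end

end LCY
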