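import Pool.Agent.Helper2.LCY.E2
import Pool.Agent.Helper51.LCY.P5
import Pool.Agent.Helper62.LCY.N2

/-!
Step 1 of MP_f7e214_ag: the equation of the divisor of poles is a polynomial of small degree.
-/

open Polynomial

namespace LCY

noncomputable section

variable {L : Type} [Field L] [Algebra ℂ L] {N : ℕ}

theorem H2.pval_int (P : Coord L) {p : ℂ[X][X]} (hp : Prime p) (f : ℂ[X][X]) :
    (P.pval p hp).Int (ev P.x P.y f) := by
  by_cases hf : f = 0
  · left; rw [hf, map_zero]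
  · right; rw [P.pval_ev hp hf]; exact Int.natCast_nonneg _

theorem H2.pval_pos (P : Coord L) {p : ℂ[X][X]} (hp : Prime p) {f : ℂ[X][X]} (hf : f ≠ 0)
    (h : (P.pval p hp).Pos (ev P.x P.y f)) : p ∣ f := by
  rcases h with h | h
  · exact absurd h (P.ne hf)
  · rw [P.pval_ev hp hf] at h
    by_contra hcon
    rw [multiplicity_eq_zero.2 hcon] at h
    simp at h

theorem H2.pval_curve (P : Coord L) {p : ℂ[X][X]} (hp : Prime p) :
    ¬ ((∃ c : ℂ, (P.pval p hp).Pos (P.x - algebraMap ℂ L c)) ∧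
      ∃ c : ℂ, (P.pval p hp).Pos (P.y - algebraMap ℂ L c)) := by
  rintro ⟨⟨c, hc⟩, ⟨d, hd⟩⟩
  have e1 : P.x - algebraMap ℂ L c = ev P.x P.y (C (X - C c)) := by
    rw [ev_C, _root_.map_sub, aeval_X, aeval_C]
  have e2 : P.y - algebraMap ℂ L d = ev P.x P.y (X - C (C d)) := by
    rw [_root_.map_sub, ev_X, ev_CC]
  rw [e1] at hc
  rw [e2] at hd
  have h1 := H2.pval_pos P hp (by rw [Ne, C_eq_zero]; exact X_sub_C_ne_zero c) hc
  have h2 := H2.pval_pos P hp (X_sub_C_ne_zero (C d)) hd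
  have h3 : p.natDegree = 0 := by
    have := natDegree_le_of_dvd h1 (by rw [Ne, C_eq_zero]; exact X_sub_C_ne_zero c)
    rw [natDegree_C] at this
    omega
  obtain ⟨r, rfl⟩ := natDegree_eq_zero.1 h3
  rw [C_dvd_iff_dvd_coeff] at h2
  have h4 := h2 1
  rw [coeff_sub, coeff_X_one, coeff_C, if_neg one_ne_zero, sub_zero] at h4
  exact hp.not_isUnit (isUnit_C.2 (isUnit_of_dvd_one h4))

/-- A function without poles on the curves of the affine plane is a polynomial. -/
theorem H2.poly_of_int (P : Coord L) {z : L}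
    (h : ∀ (p : ℂ[X][X]) (hp : Prime p), z = 0 ∨ 0 ≤ (P.pval p hp).v z) :
    ∃ F, ev P.x P.y F = z := by
  by_cases hz : z = 0
  · exact ⟨0, by rw [map_zero, hz]⟩
  obtain ⟨f, g, hg, rfl⟩ := P.surj z
  obtain ⟨f', g', c', hrel, hf, hg'⟩ := UniqueFactorizationMonoid.exists_reduced_factors' f g hg
  have hc0 : c' ≠ 0 := by rintro rfl; rw [zero_mul] at hg'; exact hg hg'.symm
  have hg0 : g' ≠ 0 := by rintro rfl; rw [mul_zero] at hg'; exact hg hg'.symm
  have hf0 : f' ≠ 0 := by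
    rintro rfl
    rw [mul_zero] at hf
    apply hz
    rw [← hf, map_zero, zero_div]
  have hzz : ev P.x P.y f / ev P.x P.y g = ev P.x P.y f' / ev P.x P.y g' := by
    rw [← hf, ← hg', _root_.map_mul, _root_.map_mul, mul_div_mul_left _ _ (P.ne hc0)]
  by_cases hu : IsUnit g'
  · obtain ⟨u, hu⟩ := hu
    refine ⟨f' * ((u⁻¹ : ℂ[X][X]ˣ) : ℂ[X][X]), ?_⟩
    rw [hzz, _root_.map_mul, ← hu, eq_div_iff (P.ne (Units.ne_zero u)), mul_assoc,
      ← _root_.map_mul, Units.inv_mul, map_one, mul_one]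
  · exfalso
    obtain ⟨p, hp, hpg⟩ := WfDvdMonoid.exists_irreducible_factor hu hg0
    have hp' := hp.prime
    have hpf : ¬ p ∣ f' := fun h => hp.not_isUnit (hrel h hpg)
    rcases h p hp' with h1 | h1
    · exact hz h1
    · rw [hzz, (P.pval p hp').map_div (P.ne hf0) (P.ne hg0), P.pval_ev hp' hf0,
        P.pval_ev hp' hg0, multiplicity_eq_zero.2 hpf] at h1
      have h2 : 0 < multiplicity p g' := by
        rw [Nat.pos_iff_ne_zero, Ne, multiplicity_eq_zero, not_not]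
        exact hpg
      push_cast at h1
      omega

/-- Support of a polynomial which is again a polynomial in other toric coordinates. -/
theorem H2.supp_tor (P Q : Coord L) (a b c d p r : ℤ)
    (hdet : a * d - b * c = 1 ∨ a * d - b * c = -1)
    (hx : P.x = Q.x ^ a * Q.y ^ b) (hy : P.y = Q.x ^ c * Q.y ^ d) {F F' : ℂ[X][X]}
    (h : Q.x ^ p * Q.y ^ r * ev P.x P.y F = ev Q.x Q.y F') :
    ∀ e, cf F e ≠ 0 → 0 ≤ a * e.1 + c * e.2 + p ∧ 0 ≤ b * e.1 + d * e.2 + r := by
  obtain ⟨n1, hn1⟩ := exists_bound F a c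
  obtain ⟨n2, hn2⟩ := exists_bound F b d
  set n : ℕ := n1 + n2 + p.natAbs + r.natAbs with hn
  have hpos : ∀ e, cf F e ≠ 0 → 0 ≤ a * e.1 + c * e.2 + (p + n) ∧
      0 ≤ b * e.1 + d * e.2 + (r + n) := by
    intro e he
    have h1 := hn1 e he
    have h2 := hn2 e he
    push_cast at hn
    constructor
    · have : -(p.natAbs : ℤ) ≤ p := by omega
      omega
    · have : -(r.natAbs : ℤ) ≤ r := by omega
      omega
  obtain ⟨G, h1, h2, h3⟩ := toricZ F a b c d (p + n) (r + n) hdet hpos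
  have hQx := Q.x_ne
  have hQy := Q.y_ne
  have h4 := h3 L Q.x Q.y hQx hQy
  rw [← hx, ← hy, zpow_add₀ hQx, zpow_add₀ hQy, zpow_natCast, zpow_natCast] at h4
  have h5 : ev Q.x Q.y G = ev Q.x Q.y (C (X ^ n) * (X ^ n * F')) := by
    rw [h4, _root_.map_mul, _root_.map_mul, ← h, ev_C, _root_.map_pow, _root_.map_pow, ev_X,
      aeval_X]
    ring
  have h6 : G = C (X ^ n) * (X ^ n * F') := by
    have h7 := Q.inj (G - C (X ^ n) * (X ^ n * F')) (by rw [_root_.map_sub, h5, sub_self])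
    exact sub_eq_zero.1 h7
  intro e he
  obtain ⟨e', g1, g2, g3⟩ := h1 e he
  have h8 : cf G e' ≠ 0 := by rw [g3]; exact he
  rw [h6] at h8
  unfold cf at h8
  rw [coeff_C_mul] at h8
  have h9 : n ≤ e'.1 := by
    by_contra hcon
    apply h8
    rw [coeff_X_pow_mul', if_neg hcon]
  have h10 : n ≤ e'.2 := by
    by_contra hcon
    apply h8
    rw [coeff_X_pow_mul' F', if_neg hcon, mul_zero, coeff_zero]
  constructor
  · omega
  · omega

end

end LCY
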