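import Pool.Agent.Helper2.LCY.E9
import Pool.Agent.Helper62.LCY.N7

/-!
Step 1 of MP_f7e214_ag: the initial state and the assembly of step 1.
-/

open Polynomial Pool.Agent.Helper82.LCY

namespace LCY

noncomputable section

variable {L : Type} [Field L] [Algebra ℂ L] {N : ℕ}

/-- The structure with one more point. -/
def H2.snoc {k : ℕ} (T : PStr L k) (R : Subalgebra ℂ L) (hR : R ∈ T.X) : PStr L (k + 1) where
  S := T.S
  R := Fin.snoc T.R R
  valid := by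
    have hc : ∀ j : ℕ, j ≤ k → surf T.S (Fin.snoc T.R R : Fin (k + 1) → Subalgebra ℂ L) j =
        surf T.S T.R j := by
      intro j hj
      refine surf_congr T.S _ _ j (hj.trans (Nat.le_succ k)) hj ?_
      intro i h1 h2 _
      have : (⟨i, h1⟩ : Fin (k + 1)) = Fin.castSucc ⟨i, h2⟩ := rfl
      rw [this, Fin.snoc_castSucc]
    intro i
    refine Fin.lastCases ?_ (fun i => ?_) i
    · rw [Fin.snoc_last, Fin.val_last, hc k le_rfl]
      exact hR
    · rw [Fin.snoc_castSucc, Fin.val_castSucc, hc i i.2.le]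
      exact T.valid i

theorem H2.muSeq_snoc {x : Fin (N + 1) → L} {P : Coord L} {a k : ℕ} {T : PStr L k}
    (hT : H2.MuSeq x P a T) {R : Subalgebra ℂ L} (hR : R ∈ T.X) (hm : H2.Mu x a R) :
    H2.MuSeq x P a (H2.snoc T R hR) := by
  refine ⟨hT.S, fun i => ?_⟩
  show H2.Mu x a ((Fin.snoc T.R R : Fin (k + 1) → Subalgebra ℂ L) i)
  refine Fin.lastCases ?_ (fun i => ?_) i
  · rw [Fin.snoc_last]; exact hm
  · rw [Fin.snoc_castSucc]; exact hT.mu i

theorem H2.muSeq_trunc {x : Fin (N + 1) → L} {P : Coord L} {a k : ℕ} {T : PStr L k}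
    (hT : H2.MuSeq x P a T) (j : ℕ) (hj : j ≤ k) : H2.MuSeq x P a (T.trunc j hj) :=
  ⟨hT.S, fun i => hT.mu _⟩

/-- The initial state. -/
theorem H2.init (hLOC : H2.ST_LOC) (hCON : H2.ST_CON) (h16 : ST_A16) (hB1 : ST_B1)
    (hB2 : ST_B2K) (hC3 : ST_C3) (hC4 : ST_C4) {ω : Bracket L} {x : Fin (N + 1) → L}
    (hc : H2.Ctx ω x) {P : Coord L} {q : L} {a : ℕ} (h : MinP2 x P q a) :
    ∃ (k : ℕ) (T : PStr L k), State ω x T := by
  have h9 : ¬ ∃ T : PStr L 9, H2.MuSeq x P a T := by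
    rintro ⟨T, hT⟩
    obtain ⟨w, μ, H⟩ := H2.exists_bd hLOC h16 hB1 hB2 hC3 hC4 hc h T hT
    exact H.not9 rfl
  have hmax : ∃ (k : ℕ) (T : PStr L k), H2.MuSeq x P a T ∧ ∀ R ∈ T.X, ¬ H2.Mu x a R := by
    by_contra hcon
    push Not at hcon
    have h1 : ∀ k : ℕ, ∃ T : PStr L k, H2.MuSeq x P a T := by
      intro k
      induction k with
      | zero =>
        exact ⟨⟨P, fun i => i.elim0, fun i => i.elim0⟩, rfl, fun i => i.elim0⟩
      | succ k ih =>
        obtain ⟨T, hT⟩ := ih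
        obtain ⟨R, hR, hm⟩ := hcon k T hT
        exact ⟨_, H2.muSeq_snoc hT hR hm⟩
    exact h9 (h1 9)
  obtain ⟨k, T, hT, hT2⟩ := hmax
  obtain ⟨w, μ, H⟩ := H2.exists_bd hLOC h16 hB1 hB2 hC3 hC4 hc h T hT
  have hcon := H2.conHyp hc h
  have hloc := hLOC L N ω x hc.big P q a h k T hT.S hT.mu k le_rfl
  refine ⟨k, T, ?_, ?_, ?_, ?_, ?_⟩
  · by_contra hk
    push Not at hk
    exact h9 ⟨T.trunc 9 hk, H2.muSeq_trunc hT 9 hk⟩
  · rintro v hv n hn
    obtain ⟨R, hR, hth⟩ := id hv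
    obtain ⟨i, hi⟩ := hc.xmin v
    have h1 := H2.eq_curve hc hcon.h0 (hloc R hR) hth hn hi
    have h2 := H.sys v hv
    rw [← H.μ_eq hi] at h2
    have h3 : (0 : ℤ) < a := by exact_mod_cast hcon.pos
    have h4 : n = w v := by
      have h5 : (a : ℤ) * n = a * w v := by linarith
      exact mul_left_cancel₀ h3.ne' h5
    rw [h4]
    exact H.wt hv
  · intro v hv
    exact H.nef hv
  · intro v hv hv0 hvc
    refine H.conEq ?_ hv hv0 hvc
    intro R hR v u hv1 hu hv2 hv3 hu2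
    refine hCON L N ω x hc.big hc.h1 hc.h2 hc.ex hc.wp hc.nr a _ hcon.pos hcon.h0 ?_ R
      (hloc R hR) (hT2 R hR) v u hv1 hu hv2 hv3 hu2
    intro v n m hn hm
    obtain ⟨i, hi, rfl⟩ := H2.xmin_of hm
    exact hcon.theta v n i hn hi
  · refine ⟨a, _, hcon.pos, hcon.h0, ?_, ?_, P, q, h.1⟩
    · rintro v ⟨R, hR, hth⟩ n m hn hm
      obtain ⟨i, hi, rfl⟩ := H2.xmin_of hm
      exact H2.eq_curve hc hcon.h0 (hloc R hR) hth hn hi
    · intro v n m hn hm
      obtain ⟨i, hi, rfl⟩ := H2.xmin_of hm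
      exact hcon.theta v n i hn hi

/-- STEP 1 from the rows about surfaces. -/
theorem H2.st_STEP1 (hNR : ST_NR) (hB1 : ST_B1) (hB2 : ST_B2K) (hC3 : ST_C3) (hC4 : ST_C4) :
    ST_STEP1 := by
  intro L _ _ N ω x hA hr
  have hc := H2.ctx hNR hA
  rcases H2.asm1 hc hr with h | h | ⟨P, q, a, h⟩
  · exact Or.inl h
  · exact Or.inr (Or.inl h)
  · exact Or.inr (Or.inr (H2.init H62.st_LOC H62.st_CON H98.st_A16 hB1 hB2 hC3 hC4 hc h))

end

end LCY
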