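import Pool.Agent.Helper2.LCY.E1b

/-!
Step 1 of MP_f7e214_ag: sections of powers of the anticanonical class are constant on contracted
curves; the minimal models without points of maximal multiplicity.
-/

open Polynomial

namespace LCY

noncomputable section

variable {L : Type} [Field L] [Algebra ℂ L] {N : ℕ}

/-- A nonzero residue at a place: quotients. -/
theorem H2.res_div (v : DVal L) {a b : L} {c d : ℂ} (hb : b ≠ 0) (hvb : v.v b = 0)
    (ha : v.Pos (a - algebraMap ℂ L c)) (hd : v.Pos (b - algebraMap ℂ L d)) :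
    ∃ e : ℂ, v.Pos (a / b - algebraMap ℂ L e) := by
  have hd0 : d ≠ 0 := by
    intro h
    rw [h, map_zero, sub_zero] at hd
    rcases hd with h1 | h1
    · exact hb h1
    · omega
  refine ⟨c / d, ?_⟩
  have hdne : algebraMap ℂ L d ≠ 0 := by
    intro h
    exact hd0 (by rwa [map_eq_zero] at h)
  have e1 : a / b - algebraMap ℂ L (c / d) = (a - algebraMap ℂ L c) * b⁻¹ +
      -((b - algebraMap ℂ L d) * (b⁻¹ * algebraMap ℂ L (c / d))) := by
    rw [map_div₀]
    field_simp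
    ring
  have hbi : v.Int b⁻¹ := Or.inr (by rw [v.map_inv hb, hvb]; rfl)
  rw [e1]
  exact v.pos_add (v.pos_mul_int ha hbi)
    (v.pos_neg (v.pos_mul_int hd (v.int_mul hbi (v.int_const _))))

theorem H2.res_mul (v : DVal L) {a b : L} {c d : ℂ} (hb : v.Int b)
    (ha : v.Pos (a - algebraMap ℂ L c)) (hd : v.Pos (b - algebraMap ℂ L d)) :
    v.Pos (a * b - algebraMap ℂ L (c * d)) := by
  have e1 : a * b - algebraMap ℂ L (c * d) = (a - algebraMap ℂ L c) * b +
      (b - algebraMap ℂ L d) * algebraMap ℂ L c := by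
    rw [_root_.map_mul]; ring
  rw [e1]
  exact v.pos_add (v.pos_mul_int ha hb) (v.pos_mul_int hd (v.int_const _))

theorem H2.res_pow (v : DVal L) {a : L} {c : ℂ} (hai : v.Int a)
    (ha : v.Pos (a - algebraMap ℂ L c)) (n : ℕ) :
    ∃ e : ℂ, v.Pos (a ^ n - algebraMap ℂ L e) := by
  induction n with
  | zero => exact ⟨1, Or.inl (by rw [map_one, pow_zero, sub_self])⟩
  | succ n ih =>
    obtain ⟨e, he⟩ := ih
    exact ⟨e * c, by rw [pow_succ]; exact H2.res_mul v hai he ha⟩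

/-- LEMMA K. If `H δ ^ A` is a section of the `r t`-th power of the system and `δ ^ a` is a
section of the `r`-th power, then `H / δ ^ (a t - A)` has constant residue at the contracted
places where the second section does not vanish. -/
theorem lemK {x : Fin (N + 1) → L} (hNR : NR x) {q δ H : L} (hq : q ≠ 0) (hδ : δ ≠ 0)
    (hH : H ≠ 0) (a r t A : ℕ) (hA : A ≤ a * t) (i : Fin (N + 1))
    (h1 : ∀ w : DVal L, ¬ Contracted x w → XMin x w i →
      (r : ℤ) * (w.v q + w.v (x i)) ≤ a * w.v δ)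
    (h2 : ∀ w : DVal L, ¬ Contracted x w → XMin x w i →
      (r : ℤ) * t * (w.v q + w.v (x i)) ≤ w.v H + A * w.v δ)
    (v : DVal L) (hv : Contracted x v) (hvi : XMin x v i)
    (hval : (a : ℤ) * v.v δ = r * (v.v q + v.v (x i))) :
    ∃ c : ℂ, v.Pos (H / δ ^ (a * t - A) - algebraMap ℂ L c) := by
  have hqi : q * x i ≠ 0 := mul_ne_zero hq hvi.1
  set φ : L := δ ^ a / (q * x i) ^ r with hφ
  set ψ : L := H * δ ^ A / (q * x i) ^ (r * t) with hψ
  have hφne : φ ≠ 0 := div_ne_zero (pow_ne_zero _ hδ) (pow_ne_zero _ hqi)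
  have hψne : ψ ≠ 0 := div_ne_zero (mul_ne_zero hH (pow_ne_zero _ hδ)) (pow_ne_zero _ hqi)
  have hφv : ∀ w : DVal L, w.v φ = a * w.v δ - r * (w.v q + w.v (x i)) := by
    intro w
    rw [hφ, w.map_div (pow_ne_zero _ hδ) (pow_ne_zero _ hqi), w.map_pow hδ, w.map_pow hqi,
      w.map_mul _ _ hq hvi.1]
  have hψv : ∀ w : DVal L, w.v ψ = w.v H + A * w.v δ - r * t * (w.v q + w.v (x i)) := by
    intro w
    rw [hψ, w.map_div (mul_ne_zero hH (pow_ne_zero _ hδ)) (pow_ne_zero _ hqi),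
      w.map_mul _ _ hH (pow_ne_zero _ hδ), w.map_pow hδ, w.map_pow hqi,
      w.map_mul _ _ hq hvi.1]
    push_cast; ring
  obtain ⟨hφi, hφc⟩ := hNR i φ (fun w hw hwi => Or.inr (by
    rw [hφv]; have := h1 w hw hwi; omega)) v hvi
  obtain ⟨hψi, hψc⟩ := hNR i ψ (fun w hw hwi => Or.inr (by
    rw [hψv]; have := h2 w hw hwi; omega)) v hvi
  obtain ⟨c0, hc0⟩ := hφc hv
  obtain ⟨c1, hc1⟩ := hψc hv
  have hv0 : v.v φ = 0 := by rw [hφv, hval]; ring
  obtain ⟨e, he⟩ := H2.res_pow v hφi hc0 t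
  have hkey : H / δ ^ (a * t - A) = ψ / φ ^ t := by
    rw [hφ, hψ, div_pow, ← pow_mul, ← pow_mul]
    rw [div_div_div_cancel_right₀ (pow_ne_zero _ hqi)]
    rw [div_eq_div_iff (pow_ne_zero _ hδ) (pow_ne_zero _ hδ), mul_assoc, ← pow_add,
      Nat.add_sub_cancel' hA]
  rw [hkey]
  exact H2.res_div v (pow_ne_zero _ hφne) (by rw [v.map_pow hφne, hv0]; ring) hc1 he

/-- The order at `v` allowed for a section of `- K` on the surface `F_n`. -/
def An (n : ℕ) (s y : L) (v : DVal L) : ℤ :=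
  if 0 ≤ v.v s then 2 * min 0 (v.v y) else (n + 2) * v.v s + 2 * min 0 (v.v y - n * v.v s)

theorem An_le_zero (n : ℕ) (s y : L) (v : DVal L) : An n s y v ≤ 0 := by
  unfold An
  split_ifs with h
  · have := min_le_left 0 (v.v y); omega
  · have h1 := min_le_left 0 (v.v y - n * v.v s)
    push Not at h
    have h2 : ((n : ℤ) + 2) * v.v s ≤ 0 :=
      mul_nonpos_of_nonneg_of_nonpos (by positivity) (by omega)
    omega

theorem An_le_s (n : ℕ) (s y : L) (v : DVal L) : An n s y v ≤ v.v s := by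
  unfold An
  split_ifs with h
  · have := min_le_left 0 (v.v y); omega
  · have h1 := min_le_left 0 (v.v y - n * v.v s)
    push Not at h
    have h2 : ((n : ℤ) + 1) * v.v s ≤ 0 :=
      mul_nonpos_of_nonneg_of_nonpos (by positivity) (by omega)
    nlinarith

theorem An_le_y (n : ℕ) (s y : L) (v : DVal L) : An n s y v ≤ v.v y := by
  unfold An
  split_ifs with h
  · rcases le_total 0 (v.v y) with h1 | h1
    · rw [min_eq_left h1]; omega
    · rw [min_eq_right h1]; omega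
  · push Not at h
    rcases le_total 0 (v.v y - n * v.v s) with h1 | h1
    · rw [min_eq_left h1]; nlinarith
    · rw [min_eq_right h1]
      nlinarith

/-- On a curve with `δ` a unit, the quotients `1 / δ`, `s / δ`, `y / δ` cannot all have constant
residue. -/
theorem H2.no_const (v : DVal L) {δ s y : L} (hδ : δ ≠ 0) (hv0 : v.v δ = 0)
    (hs : v.Int s) (hy : v.Int y)
    (h1 : ∃ c : ℂ, v.Pos (1 / δ - algebraMap ℂ L c))
    (h2 : ∃ c : ℂ, v.Pos (s / δ - algebraMap ℂ L c))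
    (h3 : ∃ c : ℂ, v.Pos (y / δ - algebraMap ℂ L c)) :
    (∃ c : ℂ, v.Pos (s - algebraMap ℂ L c)) ∧ ∃ c : ℂ, v.Pos (y - algebraMap ℂ L c) := by
  obtain ⟨c1, h1⟩ := h1
  obtain ⟨c2, h2⟩ := h2
  obtain ⟨c3, h3⟩ := h3
  have hne : (1 : L) / δ ≠ 0 := div_ne_zero one_ne_zero hδ
  have hv1 : v.v (1 / δ) = 0 := by rw [v.map_div one_ne_zero hδ, v.map_one, hv0]; rfl
  have e : ∀ z : L, z / δ / (1 / δ) = z := fun z => by field_simp
  have g2 := H2.res_div v hne hv1 h2 h1
  have g3 := H2.res_div v hne hv1 h3 h1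
  rw [e] at g2 g3
  exact ⟨g2, g3⟩

/-- A ruled minimal model without points of maximal multiplicity: the curves of the main chart
where the form has value zero are not contracted. -/
theorem row_O23 (ω : Bracket L) (x : Fin (N + 1) → L) (hx : ∃ i, x i ≠ 0)
    (H2' : ∀ v k, ω.Wt v k → ¬ Contracted x v → k ≤ 0)
    (hW : ∀ v, ∃ k, ω.Wt v k) (hNR : NR x) (P : Coord L) (hbr : ω.br P.x P.y ≠ 0) (q : L)
    (hq : q ≠ 0) (n d : ℕ) (hd : 0 < d)
    (hθd : ∀ v k i, ω.Wt v k → XMin x v i → 2 * (v.v q + v.v (x i)) ≤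
      (d : ℤ) * (v.v (ω.br P.x P.y) + k))
    (hθ : ∀ v k i, ω.Wt v k → XMin x v i → 2 * (v.v q + v.v (x i)) ≤
      ((d : ℤ) - 1) * (v.v (ω.br P.x P.y) + k) + An n P.x P.y v)
    (v : DVal L) (hv0 : v.v (ω.br P.x P.y) = 0) (hvx : v.Int P.x) (hvy : v.Int P.y)
    (hve : ∀ i, XMin x v i → v.v q + v.v (x i) = 0)
    (hpt : ¬ ((∃ c : ℂ, v.Pos (P.x - algebraMap ℂ L c)) ∧
      ∃ c : ℂ, v.Pos (P.y - algebraMap ℂ L c))) :
    ¬ Contracted x v := by
  intro hc
  obtain ⟨i, hi⟩ := exists_xmin hx v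
  have main : ∀ H : L, H ≠ 0 → (∀ w : DVal L, An n P.x P.y w ≤ w.v H) →
      ∃ c : ℂ, v.Pos (H / ω.br P.x P.y - algebraMap ℂ L c) := by
    intro H hH hHA
    have h := lemK hNR hq hbr hH d 2 1 (d - 1) (by omega) i ?_ ?_ v hc hi ?_
    · rwa [show d * 1 - (d - 1) = 1 by omega, pow_one] at h
    · intro w hw hwi
      obtain ⟨k, hk⟩ := hW w
      have h1 := hθd w k i hk hwi
      have h2 := H2' w k hk hw
      have h4 : (d : ℤ) * k ≤ 0 := mul_nonpos_of_nonneg_of_nonpos (by omega) h2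
      push_cast
      linarith
    · intro w hw hwi
      obtain ⟨k, hk⟩ := hW w
      have h1 := hθ w k i hk hwi
      have h2 := H2' w k hk hw
      have h3 := hHA w
      have h4 : ((d : ℤ) - 1) * k ≤ 0 := mul_nonpos_of_nonneg_of_nonpos (by omega) h2
      have h5 : ((d - 1 : ℕ) : ℤ) = (d : ℤ) - 1 := by omega
      rw [h5]
      push_cast
      nlinarith
    · rw [hv0, hve i hi]; ring
  refine hpt (H2.no_const v hbr hv0 hvx hvy ?_ ?_ ?_)
  · exact main 1 one_ne_zero fun w => by rw [w.map_one]; exact An_le_zero _ _ _ _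
  · exact main P.x P.x_ne fun w => An_le_s _ _ _ _
  · exact main P.y P.y_ne fun w => An_le_y _ _ _ _

/-- The plane without points of maximal multiplicity: the curves of the main chart
where the form has value zero are not contracted. -/
theorem row_O4a (ω : Bracket L) (x : Fin (N + 1) → L) (hx : ∃ i, x i ≠ 0)
    (H2' : ∀ v k, ω.Wt v k → ¬ Contracted x v → k ≤ 0)
    (hW : ∀ v, ∃ k, ω.Wt v k) (hNR : NR x) (P : Coord L) (hbr : ω.br P.x P.y ≠ 0) (q : L)
    (hq : q ≠ 0) (a : ℕ) (ha : 0 < a)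
    (hθa : ∀ v k i, ω.Wt v k → XMin x v i → 3 * (v.v q + v.v (x i)) ≤
      (a : ℤ) * (v.v (ω.br P.x P.y) + k))
    (hθ : ∀ v k i, ω.Wt v k → XMin x v i → 3 * (v.v q + v.v (x i)) ≤
      ((a : ℤ) - 1) * (v.v (ω.br P.x P.y) + k) + 3 * min 0 (min (v.v P.x) (v.v P.y)))
    (v : DVal L) (hv0 : v.v (ω.br P.x P.y) = 0) (hvx : v.Int P.x) (hvy : v.Int P.y)
    (hve : ∀ i, XMin x v i → v.v q + v.v (x i) = 0)
    (hpt : ¬ ((∃ c : ℂ, v.Pos (P.x - algebraMap ℂ L c)) ∧
      ∃ c : ℂ, v.Pos (P.y - algebraMap ℂ L c))) :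
    ¬ Contracted x v := by
  intro hc
  obtain ⟨i, hi⟩ := exists_xmin hx v
  have main : ∀ H : L, H ≠ 0 → (∀ w : DVal L, 3 * min 0 (min (w.v P.x) (w.v P.y)) ≤ w.v H) →
      ∃ c : ℂ, v.Pos (H / ω.br P.x P.y - algebraMap ℂ L c) := by
    intro H hH hHA
    have h := lemK hNR hq hbr hH a 3 1 (a - 1) (by omega) i ?_ ?_ v hc hi ?_
    · rwa [show a * 1 - (a - 1) = 1 by omega, pow_one] at h
    · intro w hw hwi
      obtain ⟨k, hk⟩ := hW w
      have h1 := hθa w k i hk hwi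
      have h2 := H2' w k hk hw
      have h4 : (a : ℤ) * k ≤ 0 := mul_nonpos_of_nonneg_of_nonpos (by omega) h2
      push_cast
      linarith
    · intro w hw hwi
      obtain ⟨k, hk⟩ := hW w
      have h1 := hθ w k i hk hwi
      have h2 := H2' w k hk hw
      have h3 := hHA w
      have h4 : ((a : ℤ) - 1) * k ≤ 0 := mul_nonpos_of_nonneg_of_nonpos (by omega) h2
      have h5 : ((a - 1 : ℕ) : ℤ) = (a : ℤ) - 1 := by omega
      rw [h5]
      push_cast
      nlinarith
    · rw [hv0, hve i hi]; ring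
  refine hpt (H2.no_const v hbr hv0 hvx hvy ?_ ?_ ?_)
  · refine main 1 one_ne_zero fun w => ?_
    rw [w.map_one]
    have := min_le_left 0 (min (w.v P.x) (w.v P.y))
    omega
  · refine main P.x P.x_ne fun w => ?_
    omega
  · refine main P.y P.y_ne fun w => ?_
    omega

end

end LCY
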