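import Pool.Agent.Helper2.LCY.E3
import Pool.Agent.Helper51.LCY.P5b

/-!
Step 1 of MP_f7e214_ag: the 2-form has no zeros on the curves of a minimal model, and its divisor
of poles is given by a polynomial of small degree.
-/

open Polynomial

namespace LCY

noncomputable section

variable {L : Type} [Field L] [Algebra ℂ L] {N : ℕ}

/-- The hypotheses of step 1. -/
structure H2.Ctx (ω : Bracket L) (x : Fin (N + 1) → L) : Prop where
  big : Big ω x
  h1 : ∀ v k, ω.Wt v k → -1 ≤ k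
  h2 : ∀ v k, ω.Wt v k → ¬ Contracted x v → k ≤ 0
  ex : ∀ v, ∃ k, ω.Wt v k
  nr : NR x
  wp : ∀ v k, ω.Wt v k → WtProp ω v k

theorem XMin.min {x : Fin (N + 1) → L} {v : DVal L} {i : Fin (N + 1)} (h : XMin x v i)
    (j : Fin (N + 1)) (hj : x j ≠ 0) : v.v (x i) ≤ v.v (x j) := by
  rcases h.2 j with h1 | h1
  · exact absurd h1 (div_ne_zero hj h.1)
  · rw [v.map_div hj h.1] at h1; omega

theorem H2.Ctx.xmin {ω : Bracket L} {x : Fin (N + 1) → L} (hc : H2.Ctx ω x) (v : DVal L) :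
    ∃ i, XMin x v i := exists_xmin (ex_ne hc.big) v

/-- The 2-form has no zeros on the curves of a minimal plane. -/
theorem H2.k_nonpos_P2 {ω : Bracket L} {x : Fin (N + 1) → L} (hc : H2.Ctx ω x) {P : Coord L}
    {q : L} {a : ℕ} (h : MinP2 x P q a) {v : DVal L} {k : ℤ} (hk : ω.Wt v k)
    (hv : CurveP2 P v) : k ≤ 0 := by
  obtain ⟨i, hi⟩ := hc.xmin v
  obtain ⟨F, hF, -⟩ := id h.1
  have hbr := P.br_ne ω
  have hqi : q * x i ≠ 0 := mul_ne_zero hF.1 hi.1
  have ha : 0 < a := h.1.pos hc.big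
  have hval : ∀ w : DVal L, w.v (ω.br P.x P.y ^ a / (q * x i) ^ 3) =
      a * w.v (ω.br P.x P.y) - 3 * (w.v q + w.v (x i)) := by
    intro w
    rw [w.map_div (pow_ne_zero _ hbr) (pow_ne_zero _ hqi), w.map_pow hbr, w.map_pow hqi,
      w.map_mul _ _ hF.1 hi.1]
    push_cast; ring
  have h1 := (hc.nr i (ω.br P.x P.y ^ a / (q * x i) ^ 3) (fun w hw hwi => Or.inr (by
    obtain ⟨k', hk'⟩ := hc.ex w
    have h2 := h.theta hc.big (hc.wp w k' hk') hwi.1 hwi.min
    have h3 := hc.h2 w k' hk' hw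
    have h4 : (a : ℤ) * k' ≤ 0 := mul_nonpos_of_nonneg_of_nonpos (by positivity) h3
    rw [hval]
    linarith)) v hi).1
  have h2 := h1.resolve_left (div_ne_zero (pow_ne_zero _ hbr) (pow_ne_zero _ hqi))
  rw [hval] at h2
  have h3 := h.theta_eq hc.big (hc.wp v k hk) hv hi.1 hi.min
  by_contra hcon
  push Not at hcon
  have h4 : (0 : ℤ) < a * k := mul_pos (by exact_mod_cast ha) hcon
  linarith

/-- The curves in the part of a ruled structure where the base coordinate is finite. -/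
def H2.CurveR (P : Coord L) (v : DVal L) : Prop :=
  v.Int P.x ∧ ((v.Int P.y ∧ ¬ ((∃ c : ℂ, v.Pos (P.x - algebraMap ℂ L c)) ∧
      ∃ c : ℂ, v.Pos (P.y - algebraMap ℂ L c))) ∨
    (v.v P.y < 0 ∧ ¬ ∃ c : ℂ, v.Pos (P.x - algebraMap ℂ L c)))

theorem H2.theta_eq_R {ω : Bracket L} {x : Fin (N + 1) → L} (hc : H2.Ctx ω x) {P : Coord L}
    {q : L} {d b n : ℕ} (h : MinR x P q d b n) {v : DVal L} {k : ℤ} (hk : ω.Wt v k)
    (hv : H2.CurveR P v) {i : Fin (N + 1)} (hi : XMin x v i) :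
    2 * (v.v q + v.v (x i)) = d * (v.v (ω.br P.x P.y) + k) := by
  obtain ⟨hX, ⟨hY, hnc⟩ | ⟨hY, hcon⟩⟩ := hv
  · obtain ⟨h1, h2⟩ := h.curve_aff hc.big (hc.wp v k hk) hX hY hnc hi.1 hi.min
    rw [h1, h2]; ring
  · obtain ⟨F, hF, hS⟩ := id h.1
    obtain ⟨h1, h2⟩ := curve_inf hF (fun j e he => (hS j e he).1) (h.ex_deg hc.big hF)
      (hc.wp v k hk) hX hY hcon hi.1 hi.min
    rw [h1, h2]; ring

/-- The 2-form has no zeros on the curves of a minimal ruled structure. -/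
theorem H2.k_nonpos_R {ω : Bracket L} {x : Fin (N + 1) → L} (hc : H2.Ctx ω x) {P : Coord L}
    {q : L} {d b n : ℕ} (h : MinR x P q d b n) {v : DVal L} {k : ℤ} (hk : ω.Wt v k)
    (hv : H2.CurveR P v) : k ≤ 0 := by
  obtain ⟨i, hi⟩ := hc.xmin v
  obtain ⟨F, hF, -⟩ := id h.1
  have hbr := P.br_ne ω
  have hqi : q * x i ≠ 0 := mul_ne_zero hF.1 hi.1
  have hd : 0 < d := h.1.pos hc.big
  have hcn := (h.c_nonneg hc.big).1
  have hval : ∀ w : DVal L, w.v (ω.br P.x P.y ^ d / (q * x i) ^ 2) =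
      d * w.v (ω.br P.x P.y) - 2 * (w.v q + w.v (x i)) := by
    intro w
    rw [w.map_div (pow_ne_zero _ hbr) (pow_ne_zero _ hqi), w.map_pow hbr, w.map_pow hqi,
      w.map_mul _ _ hF.1 hi.1]
    push_cast; ring
  have h1 := (hc.nr i (ω.br P.x P.y ^ d / (q * x i) ^ 2) (fun w hw hwi => Or.inr (by
    obtain ⟨k', hk'⟩ := hc.ex w
    have h2 := h.theta hc.big (hc.wp w k' hk') hwi.1 hwi.min
    have h3 := hc.h2 w k' hk' hw
    have h4 : (d : ℤ) * k' ≤ 0 := mul_nonpos_of_nonneg_of_nonpos (by positivity) h3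
    have h5 : (0 : ℤ) ≤ (2 * b - n * d - 2 * d : ℤ) := by
      have : (((n + 2) * d : ℕ) : ℤ) ≤ ((2 * b : ℕ) : ℤ) := by exact_mod_cast hcn
      push_cast at this
      linarith
    have h6 : (0 : ℤ) ≤ (2 * b - n * d - 2 * d : ℤ) * max 0 (-(w.v P.x)) :=
      mul_nonneg h5 (le_max_left _ _)
    rw [hval]
    linarith)) v hi).1
  have h2 := h1.resolve_left (div_ne_zero (pow_ne_zero _ hbr) (pow_ne_zero _ hqi))
  rw [hval] at h2
  have h3 := H2.theta_eq_R hc h hk hv hi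
  by_contra hcon
  push Not at hcon
  have h4 : (0 : ℤ) < d * k := mul_pos (by exact_mod_cast hd) hcon
  linarith

/-- The divisor of poles on a minimal plane is a cubic. -/
theorem H2.delta_plane {ω : Bracket L} {x : Fin (N + 1) → L} (hc : H2.Ctx ω x) {P : Coord L}
    {q : L} {a : ℕ} (h : MinP2 x P q a) :
    ∃ F : ℂ[X][X], ev P.x P.y F = ω.br P.x P.y ∧ ∀ e, cf F e ≠ 0 → e.1 + e.2 ≤ 3 := by
  have key : ∀ (P : Coord L) (q : L), MinP2 x P q a →
      ∃ F : ℂ[X][X], ev P.x P.y F = ω.br P.x P.y := by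
    intro P q h
    refine H2.poly_of_int P fun p hp => Or.inr ?_
    obtain ⟨k, hk⟩ := hc.ex (P.pval p hp)
    have hX : (P.pval p hp).Int P.x := by
      have := H2.pval_int P hp (C X)
      rwa [ev_C, aeval_X] at this
    have hY : (P.pval p hp).Int P.y := by
      have := H2.pval_int P hp X
      rwa [ev_X] at this
    have h1 := H2.k_nonpos_P2 hc h hk ⟨P, Or.inl ⟨rfl, rfl⟩, hX, hY, H2.pval_curve P hp⟩
    have h2 := (hc.wp _ k hk).b2 P hX hY (H2.pval_curve P hp)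
    omega
  obtain ⟨F, hF⟩ := key P q h
  refine ⟨F, hF, ?_⟩
  obtain ⟨Q, hQx, hQy, hQ⟩ := h.chart
  obtain ⟨F', hF'⟩ := key Q _ hQ
  have hxne := P.x_ne
  have hyne := P.y_ne
  have h1 := H2.supp_tor P Q (-1) 0 (-1) 1 3 0 (Or.inr (by norm_num)) (by rw [hQx]; simp)
    (by rw [hQx, hQy]; simp; field_simp) (F := F) (F' := -F') (by
      rw [_root_.map_neg, hF', hF, hQx, hQy, br_chart ω hxne, zpow_zero, mul_one, neg_neg]
      congr 1
      rw [inv_zpow]
      congr 1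
      exact zpow_ofNat P.x 3)
  intro e he
  have := (h1 e he).1
  omega

/-- The divisor of poles on a minimal ruled surface. -/
theorem H2.delta_ruled {ω : Bracket L} {x : Fin (N + 1) → L} (hc : H2.Ctx ω x) {P : Coord L}
    {q : L} {d b n : ℕ} (h : MinR x P q d b n) :
    ∃ F : ℂ[X][X], ev P.x P.y F = ω.br P.x P.y ∧
      ∀ e, cf F e ≠ 0 → e.2 ≤ 2 ∧ e.1 + n * e.2 ≤ n + 2 := by
  have key : ∀ (P : Coord L) (q : L), MinR x P q d b n →
      ∃ F : ℂ[X][X], ev P.x P.y F = ω.br P.x P.y := by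
    intro P q h
    refine H2.poly_of_int P fun p hp => Or.inr ?_
    obtain ⟨k, hk⟩ := hc.ex (P.pval p hp)
    have hX : (P.pval p hp).Int P.x := by
      have := H2.pval_int P hp (C X)
      rwa [ev_C, aeval_X] at this
    have hY : (P.pval p hp).Int P.y := by
      have := H2.pval_int P hp X
      rwa [ev_X] at this
    have h1 := H2.k_nonpos_R hc h hk ⟨hX, Or.inl ⟨hY, H2.pval_curve P hp⟩⟩
    have h2 := (hc.wp _ k hk).b2 P hX hY (H2.pval_curve P hp)
    omega
  obtain ⟨F, hF⟩ := key P q h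
  refine ⟨F, hF, ?_⟩
  have hxne := P.x_ne
  have hyne := P.y_ne
  have hbr := P.br_ne ω
  have g1 : ∀ e, cf F e ≠ 0 → e.1 + n * e.2 ≤ n + 2 := by
    obtain ⟨Q, hQx, hQy, hQ⟩ := h.inv
    obtain ⟨F', hF'⟩ := key Q _ hQ
    have hbr2 : ω.br P.x⁻¹ (P.y / P.x ^ n) = - ((P.x ^ (n + 2))⁻¹ * ω.br P.x P.y) := by
      have h2 : ω.br P.x (P.x ^ n) = 0 := by
        rw [ω.skew, ω.pow_left, ω.alt]; ring
      rw [ω.inv_left hxne, div_eq_mul_inv, ω.mul_right, ω.inv_right (pow_ne_zero _ hxne), h2]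
      field_simp
      ring
    have h1 := H2.supp_tor P Q (-1) 0 (-n) 1 (n + 2 : ℕ) 0 (Or.inr (by norm_num))
      (by rw [hQx]; simp)
      (by rw [hQx, hQy]; simp; field_simp) (F := F) (F' := -F') (by
        rw [_root_.map_neg, hF', hF, hQx, hQy, hbr2, zpow_zero, mul_one, neg_neg, zpow_natCast,
          inv_pow])
    intro e he
    have h2 := (h1 e he).1
    have h3 : ((e.1 + n * e.2 : ℕ) : ℤ) ≤ (n + 2 : ℕ) := by push_cast at h2 ⊢; linarith
    exact_mod_cast h3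
  have g2 : ∀ e, cf F e ≠ 0 → e.2 ≤ 2 := by
    obtain ⟨Q, hQx, hQy⟩ := P.tor 1 0 0 (-1) (Or.inr (by norm_num))
    have hQx' : Q.x = P.x := by rw [hQx]; simp
    have hQy' : Q.y = P.y⁻¹ := by rw [hQy]; simp
    obtain ⟨F', hF'⟩ : ∃ F' : ℂ[X][X], ev Q.x Q.y F' = ω.br Q.x Q.y := by
      refine H2.poly_of_int Q fun p hp => Or.inr ?_
      obtain ⟨k, hk⟩ := hc.ex (Q.pval p hp)
      have hX : (Q.pval p hp).Int Q.x := by
        have := H2.pval_int Q hp (C X)
        rwa [ev_C, aeval_X] at this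
      have hY : (Q.pval p hp).Int Q.y := by
        have := H2.pval_int Q hp X
        rwa [ev_X] at this
      have hcur := H2.pval_curve Q hp
      have h2 := (hc.wp _ k hk).b2 Q hX hY hcur
      have hv : H2.CurveR P (Q.pval p hp) := by
        rw [hQx'] at hX
        refine ⟨hX, ?_⟩
        rw [hQx'] at hcur
        have hYv := hY.resolve_left Q.y_ne
        rw [hQy', (Q.pval p hp).map_inv hyne] at hYv
        by_cases h3 : (Q.pval p hp).v P.y < 0
        · right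
          refine ⟨h3, fun h4 => hcur ⟨h4, 0, ?_⟩⟩
          rw [map_zero, sub_zero, hQy']
          right
          rw [(Q.pval p hp).map_inv hyne]; omega
        · left
          have hy0 : (Q.pval p hp).v P.y = 0 := by omega
          refine ⟨Or.inr (by omega), ?_⟩
          rintro ⟨h4, c, h5⟩
          refine hcur ⟨h4, ?_⟩
          have h6 := H2.res_div (Q.pval p hp) (a := 1) (c := 1) hyne hy0
            (Or.inl (by rw [map_one, sub_self])) h5
          rwa [one_div, ← hQy'] at h6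
      have h1 := H2.k_nonpos_R hc h hk hv
      omega
    have h1 := H2.supp_tor P Q 1 0 0 (-1) 0 2 (Or.inr (by norm_num))
      (by rw [hQx']; simp) (by rw [hQy']; simp) (F := F) (F' := -F') (by
        rw [_root_.map_neg, hF', hF, hQx', hQy', ω.inv_right hyne, neg_neg, zpow_zero, one_mul]
        congr 1
        rw [zpow_ofNat, pow_two])
    intro e he
    have h2 := (h1 e he).2
    omega
  exact fun e he => ⟨g2 e he, g1 e he⟩

end

end LCY
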