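import Pool.Agent.Helper2.LCY.E4
import Pool.Agent.Helper51.LCY.G1
import Pool.Agent.Helper48.LCY.Asm
import Pool.Agent.Helper62.LCY.N4

/-!
Step 1 of MP_f7e214_ag: the ruled cases. A minimal ruled structure gives a conic bundle or the
quadric cone.
-/

open Polynomial

namespace LCY

noncomputable section

variable {L : Type} [Field L] [Algebra ℂ L] {N : ℕ}

theorem H2.ctx (hNR : ST_NR) {ω : Bracket L} {x : Fin (N + 1) → L} (hA : Adm ω x) :
    H2.Ctx ω x where
  big := hA.big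
  h1 := hA.h1
  h2 := hA.h2
  ex := fun v => H73.exists_wt hA.trdeg hA.fg ω v
  nr := H2.nr_of hNR ω x hA
  wp := fun v _ hk => wtProp hA.trdeg hA.fg ω v hk

/-- The strict inequality THETA in the case `c = 0`. -/
theorem H2.theta_strict {ω : Bracket L} {x : Fin (N + 1) → L} (hc : H2.Ctx ω x) {P : Coord L}
    {q : L} {d b n : ℕ} (h : MinR x P q d b n) (hbd : 2 * b = (n + 2) * d) {v : DVal L} {k : ℤ}
    (hk : ω.Wt v k) {i : Fin (N + 1)} (hi : XMin x v i) :
    2 * (v.v q + v.v (x i)) ≤ ((d : ℤ) - 1) * (v.v (ω.br P.x P.y) + k) + An n P.x P.y v := by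
  have hd : 0 < d := h.1.pos hc.big
  have hd1 : ((d - 1 : ℕ) : ℤ) = (d : ℤ) - 1 := by omega
  have key : ∀ (P : Coord L) (q : L), MinR x P q d b n → v.Int P.x →
      2 * (v.v q + v.v (x i)) ≤ ((d : ℤ) - 1) * (v.v (ω.br P.x P.y) + k) +
        2 * min 0 (v.v P.y) := by
    intro P q h hX
    obtain ⟨F, hF, hS⟩ := h.1
    by_cases hY : v.v P.y < 0
    · have h1 := h.theta_inf hc.big hF (h.multInf_strict hc.big hbd hF) (hc.wp v k hk) hX hY
        hi.1 hi.min
      rw [hd1] at h1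
      rw [min_eq_right (by omega)]
      push_cast at h1
      nlinarith
    · have h1 := h.theta_aff hc.big hF (h.multLE_strict hc.big hbd hF) (hc.wp v k hk) hX
        (Or.inr (by omega)) hi.1 hi.min
      rw [hd1] at h1
      rw [min_eq_left (by omega)]
      push_cast at h1
      linarith
  unfold An
  split_ifs with hX
  · exact key P q h (Or.inr hX)
  · obtain ⟨Q, hQx, hQy, hQ⟩ := h.inv
    obtain ⟨F, hF, hS⟩ := h.1
    have hxne := P.x_ne
    have h1 := key Q _ hQ (by rw [hQx]; right; rw [v.map_inv hxne]; omega)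
    rw [hQx, hQy, v_br_inv ω v hxne (P.br_ne ω), v_q_chart v hxne hF.1,
      v.map_div P.y_ne (pow_ne_zero _ hxne), v.map_pow hxne] at h1
    have h2 : (2 * b : ℤ) = (n + 2) * d := by exact_mod_cast hbd
    have h3 : (2 * b : ℤ) * v.v P.x = (n + 2) * d * v.v P.x := by rw [h2]
    nlinarith

/-- The curves of the main chart of a minimal ruled structure with `c = 0`. -/
theorem H2.main_curve {ω : Bracket L} {x : Fin (N + 1) → L} (hc : H2.Ctx ω x) {P : Coord L}
    {q : L} {d b n : ℕ} (h : MinR x P q d b n) (hbd : 2 * b = (n + 2) * d) {v : DVal L}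
    (hX : v.Int P.x) (hY : v.Int P.y) (hnc : ¬ ((∃ c : ℂ, v.Pos (P.x - algebraMap ℂ L c)) ∧
      ∃ c : ℂ, v.Pos (P.y - algebraMap ℂ L c))) (hv : ω.Wt v 0) : ¬ Contracted x v := by
  obtain ⟨F, hF, -⟩ := id h.1
  have hd : 0 < d := h.1.pos hc.big
  have h0 := (hc.wp v 0 hv).b2 P hX hY hnc
  refine row_O23 ω x (ex_ne hc.big) hc.h2 hc.ex hc.nr P (P.br_ne ω) q hF.1 n d hd ?_ ?_ v
    (by omega) hX hY ?_ hnc
  · intro v k i hk hi
    have h2 := h.theta hc.big (hc.wp v k hk) hi.1 hi.min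
    have h5 : (2 * b - n * d - 2 * d : ℤ) = 0 := by
      have : (2 * b : ℤ) = (n + 2) * d := by exact_mod_cast hbd
      linarith
    rw [h5, zero_mul] at h2
    linarith
  · intro v k i hk hi
    exact H2.theta_strict hc h hbd hk hi
  · intro i hi
    exact (h.curve_aff hc.big (hc.wp v 0 hv) hX hY hnc hi.1 hi.min).1

/-- A place that is trivial on the rational functions in `P.x` is a curve. -/
theorem H2.hor_curve {P : Coord L} {v : DVal L} (hv : Hor P.x v) :
    v.Int P.x ∧ ¬ ∃ c : ℂ, v.Pos (P.x - algebraMap ℂ L c) := by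
  constructor
  · right
    have := hv X X_ne_zero
    rw [aeval_X] at this
    omega
  · rintro ⟨c, hc⟩
    have h1 : aeval P.x (X - C c : ℂ[X]) = P.x - algebraMap ℂ L c := by
      rw [_root_.map_sub, aeval_X, aeval_C]
    have h2 := hv (X - C c) (X_sub_C_ne_zero c)
    have h3 := P.trans_x (X_sub_C_ne_zero c)
    rw [h1] at h2 h3
    rcases hc with h4 | h4
    · exact h3 h4
    · omega

theorem H2.cbOut {ω : Bracket L} {x : Fin (N + 1) → L} (P : Coord L)
    (h : ∀ (v : DVal L) (k : ℤ), Hor P.x v → ω.Wt v k → k = -1 ∨ (k = 0 ∧ ¬ Contracted x v)) :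
    CBOut ω x :=
  ⟨_, P.y, H2.isRuling P, fun v k hv hk => h v k (H2.hor_of_horiz P hv) hk⟩

/-- Case `c > 0`. -/
theorem H2.out1 {ω : Bracket L} {x : Fin (N + 1) → L} (hc : H2.Ctx ω x) {P : Coord L}
    {q : L} {d b n : ℕ} (h : MinR x P q d b n) (hlt : 2 * d + n * d < 2 * b) : CBOut ω x := by
  obtain ⟨F, hF, -⟩ := id h.1
  have hd : 0 < d := h.1.pos hc.big
  have hM : ((2 * b - (2 * d + n * d) : ℕ) : ℤ) = 2 * b - n * d - 2 * d := by
    rw [Nat.cast_sub hlt.le]
    push_cast; ring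
  refine H2.cbOut P fun v k hv hk => ?_
  refine row_1e ω x (ex_ne hc.big) hc.h1 hc.h2 hc.ex hc.nr P (P.br_ne ω) q hF.1 d
    (2 * b - (2 * d + n * d)) hd (by omega) ?_ ?_ v hv k hk
  · intro v k i hk hi
    rw [hM]
    exact h.theta hc.big (hc.wp v k hk) hi.1 hi.min
  · intro v k i hk hi hv
    exact h.theta_eq hc.big (hc.wp v k hk) hv hi.1 hi.min

/-- Case `F_0`. -/
theorem H2.out2 {ω : Bracket L} {x : Fin (N + 1) → L} (hc : H2.Ctx ω x) {P : Coord L}
    {q : L} {d : ℕ} (h : MinR x P q d d 0) : CBOut ω x := by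
  refine H2.cbOut P fun v k hv hk => ?_
  obtain ⟨hX, hcon⟩ := H2.hor_curve hv
  have hk0 : k ≤ 0 := by
    refine H2.k_nonpos_R hc h hk ⟨hX, ?_⟩
    by_cases hY : v.v P.y < 0
    · exact Or.inr ⟨hY, hcon⟩
    · exact Or.inl ⟨Or.inr (by omega), fun h => hcon h.1⟩
  have hk1 := hc.h1 v k hk
  rcases (show k = -1 ∨ k = 0 by omega) with h0 | h0
  · exact Or.inl h0
  right
  subst h0
  refine ⟨rfl, ?_⟩
  by_cases hY : v.v P.y < 0
  · obtain ⟨F, hF, -⟩ := id h.1
    obtain ⟨Q, G, hQx, hQy, hQ, -, -⟩ := h.flip hF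
    refine H2.main_curve hc hQ (by ring) (by rw [hQx]; exact hX) ?_ ?_ hk
    · rw [hQy]; right; rw [v.map_inv P.y_ne]; omega
    · rw [hQx]; exact fun h => hcon h.1
  · exact H2.main_curve hc h (by ring) hX (Or.inr (by omega)) (fun h => hcon h.1) hk

/-! ### The quadric cone -/

theorem H2.place_int {Q : Coord L} {g : ℂ[X][X]} {v : DVal L} (hg : Irreducible g)
    (h : IsPlaceOf Q g v) (f : ℂ[X][X]) : v.Int (ev Q.x Q.y f) := by
  by_cases hf : f = 0
  · left; rw [hf, map_zero]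
  obtain ⟨f', hf', hdv⟩ := (FiniteMultiplicity.of_prime_left hg.prime hf).exists_eq_pow_mul_and_not_dvd
  right
  have hg0 : ev Q.x Q.y g ≠ 0 := Q.ne hg.ne_zero
  have hfne : f' ≠ 0 := by
    rintro rfl
    exact hdv (dvd_zero _)
  rw [hf', _root_.map_mul, _root_.map_pow, v.map_mul _ _ (pow_ne_zero _ hg0) (Q.ne hfne),
    v.map_pow hg0, h.2 f' hdv, add_zero]
  exact mul_nonneg (Int.natCast_nonneg _) h.1.le

theorem H2.place_pos {Q : Coord L} {g : ℂ[X][X]} {v : DVal L}
    (h : IsPlaceOf Q g v) {f : ℂ[X][X]} (hf : f ≠ 0) (hp : v.Pos (ev Q.x Q.y f)) : g ∣ f := by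
  by_contra hcon
  have h1 := h.2 f hcon
  rcases hp with h2 | h2
  · exact Q.ne hf h2
  · omega

/-- The curves of the main chart given by irreducible polynomials in coordinates
`(x, y + r(x))`. -/
theorem H2.place_cyp {ω : Bracket L} {x : Fin (N + 1) → L} (hc : H2.Ctx ω x) {P Q : Coord L}
    {q : L} {d b n : ℕ} (h : MinR x P q d b n) (hbd : 2 * b = (n + 2) * d) {r : ℂ[X]}
    (hQx : Q.x = P.x) (hQy : Q.y = P.y + aeval P.x r) {g : ℂ[X][X]} {v : DVal L}
    (hg : Irreducible g) (hv : IsPlaceOf Q g v) (h0 : v.v (ω.br P.x P.y) = 0) : CYp ω x v := by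
  have hX : v.Int P.x := by
    have := H2.place_int hg hv (C X)
    rwa [ev_CX, hQx] at this
  have hPy : P.y = ev Q.x Q.y (X - C r) := by
    rw [_root_.map_sub, ev_X, ev_C, hQy, hQx]; ring
  have hY : v.Int P.y := by
    rw [hPy]; exact H2.place_int hg hv _
  have hnc : ¬ ((∃ c : ℂ, v.Pos (P.x - algebraMap ℂ L c)) ∧
      ∃ c : ℂ, v.Pos (P.y - algebraMap ℂ L c)) := by
    rintro ⟨⟨c, hcc⟩, e, he⟩
    have e1 : P.x - algebraMap ℂ L c = ev Q.x Q.y (C (X - C c)) := by
      rw [ev_C, _root_.map_sub, aeval_X, aeval_C, hQx]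
    have e2 : P.y - algebraMap ℂ L e = ev Q.x Q.y (X - C (r + C e)) := by
      rw [hPy, _root_.map_sub, _root_.map_sub, ev_X, ev_C, ev_C, _root_.map_add, aeval_C]; ring
    rw [e1] at hcc
    rw [e2] at he
    have h1 := H2.place_pos hv (by rw [Ne, C_eq_zero]; exact X_sub_C_ne_zero c) hcc
    have h2 := H2.place_pos hv (X_sub_C_ne_zero _) he
    have h3 : g.natDegree = 0 := by
      have := natDegree_le_of_dvd h1 (by rw [Ne, C_eq_zero]; exact X_sub_C_ne_zero c)
      rw [natDegree_C] at this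
      omega
    obtain ⟨s, rfl⟩ := natDegree_eq_zero.1 h3
    rw [C_dvd_iff_dvd_coeff] at h2
    have h4 := h2 1
    rw [coeff_sub, coeff_X_one, coeff_C, if_neg one_ne_zero, sub_zero] at h4
    exact hg.not_isUnit (isUnit_C.2 (isUnit_of_dvd_one h4))
  obtain ⟨k, hk⟩ := hc.ex v
  have h1 := (hc.wp v k hk).b2 P hX hY hnc
  obtain rfl : k = 0 := by omega
  exact ⟨H2.main_curve hc h hbd hX hY hnc hk, hk⟩

/-- A boundary with a tacnode is excluded. -/
theorem H2.no_tacnode {ω : Bracket L} (h1 : ∀ v k, ω.Wt v k → -1 ≤ k) (R : Coord L) (α c : ℂ)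
    (h : ω.br R.x R.y = algebraMap ℂ L α * (R.y ^ 2 - algebraMap ℂ L c * R.x ^ 4)) : False := by
  have hxne := R.x_ne
  have hyne := R.y_ne
  set Q := R.st (some 0) with hQ
  have hQx : Q.x = R.x := R.st_some_x 0
  have hQy : Q.y = R.y / R.x := by rw [hQ, R.st_some_y]; simp
  set v := Q.ord with hv
  have hvx : v.v R.x = 1 := by rw [← hQx]; exact H62.ord_x Q
  have hvy1 : v.v Q.y = 1 := H62.ord_y Q
  have hvy : v.v R.y = 2 := by
    rw [hQy, v.map_div hyne hxne, hvx] at hvy1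
    omega
  have hbr := R.br_ne ω
  have hge : 4 ≤ v.v (ω.br R.x R.y) := by
    have hα : α ≠ 0 := by
      rintro rfl
      rw [map_zero, zero_mul] at h
      exact hbr h
    have hne : R.y ^ 2 - algebraMap ℂ L c * R.x ^ 4 ≠ 0 := by
      intro h0
      rw [h0, mul_zero] at h
      exact hbr h
    rw [h, v.map_const_mul hα hne]
    by_cases hc : c = 0
    · rw [hc, map_zero, zero_mul, sub_zero, v.map_pow hyne, hvy]
      norm_num
    · have hc' : algebraMap ℂ L c * R.x ^ 4 ≠ 0 := mul_ne_zero (by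
        intro h0
        exact hc (by rwa [map_eq_zero] at h0)) (pow_ne_zero _ hxne)
      have h2 := v.map_add (R.y ^ 2) (-(algebraMap ℂ L c * R.x ^ 4)) (pow_ne_zero _ hyne)
        (neg_ne_zero.2 hc') (by rwa [← sub_eq_add_neg])
      rw [← sub_eq_add_neg, v.map_neg hc', v.map_const_mul hc (pow_ne_zero _ hxne),
        v.map_pow hyne, v.map_pow hxne, hvx, hvy] at h2
      norm_num at h2
      exact h2
  have hw := H62.wt_ord ω Q
  have h2 := h1 _ _ hw
  rw [← hv] at h2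
  have h3 : v.v (ω.br Q.x Q.y) = v.v (ω.br R.x R.y) - 1 := by
    have hx' : Q.x ≠ 0 := Q.x_ne
    rcases H62.br_st ω R (some 0) with h4 | h4
    · rw [← hQ] at h4
      rw [h4, v.map_mul _ _ (inv_ne_zero hx') hbr, v.map_inv hx', hQx, hvx]; ring
    · rw [← hQ] at h4
      rw [h4, v.map_neg (mul_ne_zero (inv_ne_zero hx') hbr),
        v.map_mul _ _ (inv_ne_zero hx') hbr, v.map_inv hx', hQx, hvx]; ring
  omega

/-- Coordinates `(x, y + r(x))`. -/
theorem H2.shear (P : Coord L) (r : ℂ[X]) :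
    ∃ Q : Coord L, Q.x = P.x ∧ Q.y = P.y + aeval P.x r := by
  have hev : ∀ (x y : L) (r : ℂ[X]) (f : ℂ[X][X]),
      ev x y (f.comp (X + C r)) = ev x (y + aeval x r) f := by
    intro x y r f
    rw [ev_apply, ev_apply, eval₂_comp, eval₂_add, eval₂_X, eval₂_C]
    rfl
  refine P.mk' _ _ ?_ ?_
  · intro f hf
    refine ⟨f.comp (X + C r), 1, ?_, one_ne_zero, ?_⟩
    · intro h
      rw [← taylor_apply] at h
      exact hf (taylor_injective _ (by rw [h, map_zero]))
    · rw [one_mul, hev]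
  · intro f
    refine ⟨f.comp (X + C (-r)), 1, one_ne_zero, ?_⟩
    rw [map_one, div_one, hev, map_neg, add_neg_cancel_right]

end

end LCY
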