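import Pool.Agent.Helper2.LCY.E5

/-!
Step 1 of MP_f7e214_ag: the quadric cone; assembly of the ruled cases.
-/

open Polynomial

namespace LCY

noncomputable section

variable {L : Type} [Field L] [Algebra ℂ L] {N : ℕ}

/-- Places of irreducible polynomials in coordinates `(x, y + r(x))` are curves. -/
theorem H2.place_curve {P Q : Coord L} {r : ℂ[X]} (hQx : Q.x = P.x)
    (hQy : Q.y = P.y + aeval P.x r) {g : ℂ[X][X]} {v : DVal L} (hg : Irreducible g)
    (hv : IsPlaceOf Q g v) : v.Int P.x ∧ v.Int P.y ∧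
      ¬ ((∃ c : ℂ, v.Pos (P.x - algebraMap ℂ L c)) ∧
        ∃ c : ℂ, v.Pos (P.y - algebraMap ℂ L c)) := by
  have hX : v.Int P.x := by
    have := H2.place_int hg hv (C X)
    rwa [ev_CX, hQx] at this
  have hPy : P.y = ev Q.x Q.y (X - C r) := by
    rw [_root_.map_sub, ev_X, ev_C, hQy, hQx]; ring
  have hY : v.Int P.y := by
    rw [hPy]; exact H2.place_int hg hv _
  refine ⟨hX, hY, ?_⟩
  rintro ⟨⟨c, hcc⟩, e, he⟩
  have e1 : P.x - algebraMap ℂ L c = ev Q.x Q.y (C (X - C c)) := by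
    rw [ev_C, _root_.map_sub, aeval_X, aeval_C, hQx]
  have e2 : P.y - algebraMap ℂ L e = ev Q.x Q.y (X - C (r + C e)) := by
    rw [hPy, _root_.map_sub, _root_.map_sub, ev_X, ev_C, ev_C, _root_.map_add, aeval_C]; ring
  rw [e1] at hcc
  rw [e2] at he
  have h1 := H2.place_pos hv (by rw [Ne, C_eq_zero]; exact X_sub_C_ne_zero c) hcc
  have h2 := H2.place_pos hv (X_sub_C_ne_zero _) he
  have h3 : g.natDegree = 0 := by
    have := natDegree_le_of_dvd h1 (by rw [Ne, C_eq_zero]; exact X_sub_C_ne_zero c)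
    rw [natDegree_C] at this
    omega
  obtain ⟨s, rfl⟩ := natDegree_eq_zero.1 h3
  rw [C_dvd_iff_dvd_coeff] at h2
  have h4 := h2 1
  rw [coeff_sub, coeff_X_one, coeff_C, if_neg one_ne_zero, sub_zero] at h4
  exact hg.not_isUnit (isUnit_C.2 (isUnit_of_dvd_one h4))

/-- The bracket of `(x, y + r(x))`. -/
theorem H2.br_shear (ω : Bracket L) (x y : L) (r : ℂ[X]) :
    ω.br x (y + aeval x r) = ω.br x y := by
  have h2 : ω.br x (aeval x r) = 0 := by
    rw [ω.skew, H51br_aeval, ω.alt]; ring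
  rw [ω.add_right, h2, add_zero]

/-- LEMMA CONEF. The quadric cone, from a boundary given by an equation of degree two in `y`. -/
theorem H2.coneF {ω : Bracket L} {x : Fin (N + 1) → L} (h1 : ∀ v k, ω.Wt v k → -1 ≤ k)
    (hex : ∀ v, ∃ k, ω.Wt v k) (hwp : ∀ v k, ω.Wt v k → WtProp ω v k)
    (P P' : Coord L) (hx' : P'.x = P.x⁻¹) (hy' : P'.y = P.y / P.x ^ 2) (F : ℂ[X][X])
    (hF : ev P.x P.y F = ω.br P.x P.y) (hS : ∀ e, cf F e ≠ 0 → e.2 ≤ 2 ∧ e.1 + 2 * e.2 ≤ 4)
    (hα : cf F (0, 2) ≠ 0)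
    (ha : ∀ v : DVal L, v.Int P.x → v.Int P.y → ¬ ((∃ c : ℂ, v.Pos (P.x - algebraMap ℂ L c)) ∧
      ∃ c : ℂ, v.Pos (P.y - algebraMap ℂ L c)) → v.v (ω.br P.x P.y) = 0 → CYp ω x v)
    (hb : ∀ v : DVal L, v.Int P'.x → v.Int P'.y →
      ¬ ((∃ c : ℂ, v.Pos (P'.x - algebraMap ℂ L c)) ∧
        ∃ c : ℂ, v.Pos (P'.y - algebraMap ℂ L c)) → 0 < v.v P'.x →
      v.v (ω.br P'.x P'.y) = 0 → CYp ω x v) : ConeOut ω x := by
  have hxne := P.x_ne
  set α : ℂ := cf F (0, 2) with hαdef
  set β : ℂ[X] := F.coeff 1 with hβ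
  set γ : ℂ[X] := F.coeff 0 with hγ
  set r : ℂ[X] := C (2 * α)⁻¹ * β with hr
  set h : ℂ[X] := r ^ 2 - C α⁻¹ * γ with hh
  have hFeq : F = C γ + C β * X + C (C α) * X ^ 2 := by
    refine Polynomial.ext fun j => ?_
    rw [coeff_add, coeff_add, coeff_C, coeff_C_mul, coeff_C_mul, coeff_X, coeff_X_pow]
    rcases Nat.lt_or_ge 2 j with hj | hj
    · rw [if_neg (by omega), if_neg (by omega), if_neg (by omega)]
      simp only [mul_zero, add_zero]
      refine Polynomial.ext fun i => ?_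
      by_contra hne
      have := (hS (i, j) (by rwa [coeff_zero] at hne)).1
      dsimp only at this
      omega
    · interval_cases j
      · simp [hγ]
      · simp [hβ]
      · simp only [OfNat.ofNat_ne_zero, if_false, OfNat.one_ne_ofNat, if_true, mul_zero, mul_one,
          zero_add]
        refine Polynomial.ext fun i => ?_
        by_cases hi : i = 0
        · subst hi
          rw [coeff_C_zero]
          rfl
        · rw [coeff_C, if_neg hi]
          by_contra hne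
          have := (hS (i, 2) hne).2
          dsimp only at this
          omega
  have hβd : β.natDegree ≤ 2 := by
    rw [natDegree_le_iff_coeff_eq_zero]
    intro i hi
    by_contra hne
    have := (hS (i, 1) hne).2
    dsimp only at this
    omega
  have hγd : γ.natDegree ≤ 4 := by
    rw [natDegree_le_iff_coeff_eq_zero]
    intro i hi
    by_contra hne
    have := (hS (i, 0) hne).2
    dsimp only at this
    omega
  have hrd : r.natDegree ≤ 2 := (natDegree_C_mul_le _ _).trans hβd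
  have hhd : h.natDegree ≤ 4 := by
    refine (natDegree_sub_le _ _).trans (max_le ?_ ((natDegree_C_mul_le _ _).trans hγd))
    refine natDegree_pow_le.trans ?_
    omega
  obtain ⟨Q, hQx, hQy⟩ := H2.shear P r
  -- the equation in the new coordinates
  have hα2 : (2 * α) ≠ 0 := mul_ne_zero two_ne_zero hα
  have hδ : ω.br P.x P.y = algebraMap ℂ L α * (Q.y ^ 2 - aeval P.x h) := by
    have e1 : algebraMap ℂ L α * (algebraMap ℂ L (2 * α)⁻¹ * 2) = 1 := by
      rw [← map_ofNat (algebraMap ℂ L) 2, ← _root_.map_mul, ← _root_.map_mul,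
        ← map_one (algebraMap ℂ L)]
      congr 1
      rw [mul_comm ((2 * α)⁻¹), ← mul_assoc, mul_comm α 2]
      exact mul_inv_cancel₀ hα2
    have e2 : algebraMap ℂ L α * algebraMap ℂ L α⁻¹ = 1 := by
      rw [← _root_.map_mul, mul_inv_cancel₀ hα, map_one]
    rw [← hF, hFeq, hQy, hh, hr]
    simp only [_root_.map_add, _root_.map_mul, _root_.map_pow, _root_.map_sub, ev_C, ev_X,
      aeval_C]
    linear_combination (-(aeval P.x β * P.y)) * e1 - (aeval P.x γ) * e2
  clear_value h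
  clear_value r
  have hbrQ : ω.br Q.x Q.y = ω.br P.x P.y := by
    rw [hQx, hQy, H2.br_shear]
  -- coordinates at infinity
  obtain ⟨Q', hQ'x, hQ'y⟩ := Q.tor (-1) 0 (-2) 1 (Or.inr (by norm_num))
  have hQ'x' : Q'.x = Q.x⁻¹ := by rw [hQ'x]; simp
  have hQ'y' : Q'.y = Q.y / Q.x ^ 2 := by
    have e3 : Q.x ^ (2 : ℤ) = Q.x ^ 2 := zpow_ofNat _ 2
    rw [hQ'y, zpow_one, zpow_neg, e3, div_eq_inv_mul]
  have hrev : ∀ (p : ℂ[X]) (n : ℕ), p.natDegree ≤ n →
      aeval P.x p = P.x ^ n * aeval P.x⁻¹ (reflect n p) := by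
    intro p n hp
    rw [aeval_eq_sum_range' (Nat.lt_succ_of_le hp)]
    have hd2 : (reflect n p).natDegree ≤ n := by
      rw [natDegree_le_iff_coeff_eq_zero]
      intro i hi
      rw [coeff_reflect, revAt_eq_self_of_lt hi]
      exact coeff_eq_zero_of_natDegree_lt (lt_of_le_of_lt hp hi)
    rw [aeval_eq_sum_range' (Nat.lt_succ_of_le hd2), Finset.mul_sum,
      ← Finset.sum_range_reflect (fun i => P.x ^ n * ((reflect n p).coeff i • P.x⁻¹ ^ i))]
    refine Finset.sum_congr rfl fun i hi => ?_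
    have hi' : i ≤ n := by rw [Finset.mem_range] at hi; omega
    rw [show n + 1 - 1 - i = n - i by omega, coeff_reflect, revAt_le (by omega),
      show n - (n - i) = i by omega, mul_smul_comm]
    congr 1
    rw [inv_pow, ← div_eq_mul_inv, eq_div_iff (pow_ne_zero _ hxne), ← pow_add]
    congr 1
    omega
  have hQ'P : Q'.x = P'.x ∧ Q'.y = P'.y + aeval P'.x (reflect 2 r) := by
    refine ⟨by rw [hQ'x', hQx, hx'], ?_⟩
    rw [hQ'y', hQy, hy', hx', hQx, hrev r 2 hrd]
    field_simp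
  have hbr' : ω.br P'.x P'.y = algebraMap ℂ L (-α) *
      (Q'.y ^ 2 - aeval Q'.x (reflect 4 h)) := by
    have h2 : ω.br P.x (P.x ^ 2) = 0 := by
      rw [ω.skew, ω.pow_left, ω.alt]; ring
    have h3 : ω.br P'.x P'.y = - ((P.x ^ 4)⁻¹ * ω.br P.x P.y) := by
      rw [hx', hy', ω.inv_left hxne, div_eq_mul_inv, ω.mul_right, ω.inv_right
        (pow_ne_zero _ hxne), h2]
      field_simp
      ring
    rw [h3, hδ, hrev h 4 hhd, hQ'y', hQ'x', hQx, map_neg]
    field_simp
  refine ⟨Q, Q', h, hQ'x', hQ'y', hhd, ?_, ?_, ?_, ?_, ?_⟩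
  · -- h ≠ 0
    intro h0
    refine H2.no_tacnode h1 Q α 0 ?_
    rw [hbrQ, hδ, h0, map_zero, map_zero, zero_mul]
  · intro a h0
    obtain ⟨R, hRx, hRy⟩ := Q.trans a 0
    refine H2.no_tacnode h1 R α (h.coeff 4) ?_
    have e1 : ω.br R.x R.y = ω.br Q.x Q.y := by
      rw [hRx, hRy, ω.sub_left, ω.sub_right, ω.sub_right, ω.const_right, ω.const_left,
        ω.const_left]
      ring
    rw [e1, hbrQ, hδ, hRx, hRy, map_zero, sub_zero]
    congr 2
    conv_lhs => rw [h0]
    rw [_root_.map_mul, _root_.map_pow, _root_.map_sub, aeval_X, aeval_C, aeval_C, hQx]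
  · intro a h0
    refine H2.no_tacnode h1 Q' (-α) a ?_
    have e1 : ω.br Q'.x Q'.y = ω.br P'.x P'.y := by
      rw [hQ'P.1, hQ'P.2, H2.br_shear]
    rw [e1, hbr', h0]
    congr 2
    have e2 : reflect 4 (C a : ℂ[X]) = C a * X ^ 4 := by
      have := reflect_C_mul_X_pow 4 0 (c := a)
      rw [pow_zero, mul_one, revAt_le (Nat.zero_le _)] at this
      exact this
    rw [e2, _root_.map_mul, _root_.map_pow, aeval_C, aeval_X]
  · intro g v hg hgd hv
    obtain ⟨hX, hY, hnc⟩ := H2.place_curve hQx hQy hg hv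
    refine ha v hX hY hnc ?_
    have e1 : ω.br P.x P.y = ev Q.x Q.y (C (C α) * (X ^ 2 - C h)) := by
      rw [hδ, _root_.map_mul, _root_.map_sub, _root_.map_pow, ev_CC, ev_C, ev_X, hQx]
    rw [e1]
    refine hv.2 _ fun hdv => ?_
    rcases hg.prime.dvd_or_dvd hdv with h5 | h5
    · exact hg.not_isUnit (isUnit_of_dvd_unit h5 (isUnit_C.2 (isUnit_C.2 (Ne.isUnit hα))))
    · exact hgd h5
  · intro v hv
    have hgX : Irreducible (C X : ℂ[X][X]) := H62.prime_CX.irreducible
    obtain ⟨hX, hY, hnc⟩ := H2.place_curve hQ'P.1 hQ'P.2 hgX hv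
    refine hb v hX hY hnc ?_ ?_
    · have := hv.1
      rwa [ev_CX, hQ'P.1] at this
    · have e1 : ω.br P'.x P'.y = ev Q'.x Q'.y (C (C (-α)) * (X ^ 2 - C (reflect 4 h))) := by
        rw [hbr', _root_.map_mul, _root_.map_sub, _root_.map_pow, ev_CC, ev_C, ev_X]
      rw [e1]
      refine hv.2 _ fun hdv => ?_
      rcases hgX.prime.dvd_or_dvd hdv with h5 | h5
      · exact hgX.not_isUnit (isUnit_of_dvd_unit h5 (isUnit_C.2 (isUnit_C.2
          (Ne.isUnit (neg_ne_zero.2 hα)))))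
      · rw [C_dvd_iff_dvd_coeff] at h5
        have h6 := h5 2
        rw [coeff_sub, coeff_X_pow, if_pos rfl, coeff_C, if_neg two_ne_zero, sub_zero] at h6
        exact prime_X.not_isUnit (isUnit_of_dvd_one h6)

end

end LCY
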