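import Pool.Agent.Helper2.LCY.E6

/-!
Step 1 of MP_f7e214_ag: a pair of generators gives a pair of coordinates; assembly of the ruled
cases.
-/

open Polynomial

namespace LCY

noncomputable section

variable {L : Type} [Field L] [Algebra ℂ L] {N : ℕ}

/-- The subfield annihilated by a Hamiltonian derivation. -/
def H2.ker (ω : Bracket L) (z : L) : IntermediateField ℂ L where
  carrier := {w | ω.br z w = 0}
  mul_mem' := by
    intro a b ha hb
    show ω.br z (a * b) = 0
    rw [ω.mul_right, show ω.br z a = 0 from ha, show ω.br z b = 0 from hb]; ring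
  one_mem' := ω.one_right z
  add_mem' := by
    intro a b ha hb
    show ω.br z (a + b) = 0
    rw [ω.add_right, show ω.br z a = 0 from ha, show ω.br z b = 0 from hb]; ring
  zero_mem' := ω.zero_right z
  algebraMap_mem' := fun c => ω.const_right z c
  inv_mem' := by
    intro a ha
    show ω.br z a⁻¹ = 0
    by_cases h0 : a = 0
    · rw [h0, inv_zero, ω.zero_right]
    · rw [ω.inv_right h0, show ω.br z a = 0 from ha]; ring

theorem H2.br_gen (ω : Bracket L) {a b : L} (h : IntermediateField.adjoin ℂ {a, b} = ⊤) :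
    ω.br a b ≠ 0 := by
  intro h0
  have key : ∀ z, ω.br z a = 0 → ω.br z b = 0 → ∀ w, ω.br z w = 0 := by
    intro z h1 h2 w
    have h3 : IntermediateField.adjoin ℂ {a, b} ≤ H2.ker ω z := by
      rw [IntermediateField.adjoin_le_iff]
      rintro t (rfl | ht)
      · exact h1
      · rw [Set.mem_singleton_iff] at ht
        rw [ht]
        exact h2
    have h4 : w ∈ IntermediateField.adjoin ℂ {a, b} := by
      rw [h]; exact IntermediateField.mem_top
    exact h3 h4
  have ha := key a (ω.alt a) h0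
  have hb := key b (by rw [ω.skew, h0, neg_zero]) (ω.alt b)
  obtain ⟨z, w, hzw⟩ := ω.ne_zero
  refine hzw (key z ?_ ?_ w)
  · rw [ω.skew, ha, neg_zero]
  · rw [ω.skew, hb, neg_zero]

/-- A pair of generators is a pair of coordinates. -/
theorem H2.exists_coord (ω : Bracket L) {a b : L}
    (h : IntermediateField.adjoin ℂ {a, b} = ⊤) : ∃ P : Coord L, P.x = a ∧ P.y = b := by
  have hbr := H2.br_gen ω h
  have k1 : ∀ (n : ℕ) (p : ℂ[X]), p.natDegree ≤ n → aeval a p = 0 → p = 0 := by
    intro n
    induction n with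
    | zero =>
      intro p hp h0
      rw [eq_C_of_natDegree_eq_zero (Nat.le_zero.1 hp)] at h0 ⊢
      rw [aeval_C, map_eq_zero] at h0
      rw [h0, C_0]
    | succ n ih =>
      intro p hp h0
      have h1 := H51br_aeval ω a b p
      rw [h0, ω.zero_left] at h1
      have h2 : aeval a (derivative p) = 0 := (mul_eq_zero.1 h1.symm).resolve_right hbr
      have h3 : (derivative p).natDegree ≤ n := by
        have := natDegree_derivative_le p
        omega
      have h4 := ih _ h3 h2
      have h5 := natDegree_eq_zero_of_derivative_eq_zero h4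
      exact ih p (by omega) h0
  have k2 : ∀ (n : ℕ) (f : ℂ[X][X]), f.natDegree ≤ n → ev a b f = 0 → f = 0 := by
    intro n
    induction n with
    | zero =>
      intro f hf h0
      rw [eq_C_of_natDegree_eq_zero (Nat.le_zero.1 hf)] at h0 ⊢
      rw [ev_C] at h0
      rw [k1 _ _ le_rfl h0, C_0]
    | succ n ih =>
      intro f hf h0
      have h1 := br_ev_right ω a b f
      rw [h0, ω.zero_right] at h1
      have h2 : ev a b (derivative f) = 0 := (mul_eq_zero.1 h1.symm).resolve_right hbr
      have h3 : (derivative f).natDegree ≤ n := by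
        have := natDegree_derivative_le f
        omega
      have h4 := ih _ h3 h2
      have h5 : f.natDegree = 0 := natDegree_eq_zero_of_derivative_eq_zero h4
      exact ih f (by omega) h0
  have hmem : ∀ z ∈ Algebra.adjoin ℂ ({a, b} : Set L), ∃ f, ev a b f = z := by
    intro z hz
    induction hz using Algebra.adjoin_induction with
    | mem x hx =>
      rcases hx with hx | hx
      · exact ⟨C X, by rw [ev_CX, hx]⟩
      · rw [Set.mem_singleton_iff] at hx
        exact ⟨X, by rw [ev_X, hx]⟩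
    | algebraMap r => exact ⟨C (C r), ev_CC _ _ _⟩
    | add x y _ _ hx hy =>
      obtain ⟨f, rfl⟩ := hx
      obtain ⟨g, rfl⟩ := hy
      exact ⟨f + g, map_add _ _ _⟩
    | mul x y _ _ hx hy =>
      obtain ⟨f, rfl⟩ := hx
      obtain ⟨g, rfl⟩ := hy
      exact ⟨f * g, map_mul _ _ _⟩
  refine ⟨⟨a, b, fun f hf => k2 _ f le_rfl hf, ?_⟩, rfl, rfl⟩
  intro z
  have hz : z ∈ IntermediateField.adjoin ℂ {a, b} := by
    rw [h]; exact IntermediateField.mem_top
  rw [IntermediateField.mem_adjoin_iff_div] at hz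
  obtain ⟨r, hr, s, hs, rfl⟩ := hz
  obtain ⟨f, rfl⟩ := hmem r hr
  obtain ⟨g, rfl⟩ := hmem s hs
  by_cases hg : g = 0
  · exact ⟨0, 1, one_ne_zero, by rw [hg, map_zero, div_zero, zero_div]⟩
  · exact ⟨f, g, hg, rfl⟩

/-- Case `F_2`. -/
theorem H2.out3 {ω : Bracket L} {x : Fin (N + 1) → L} (hc : H2.Ctx ω x) {P : Coord L}
    {q : L} {d : ℕ} (h : MinR x P q d (2 * d) 2) : CBOut ω x ∨ ConeOut ω x := by
  have hbd : 2 * (2 * d) = (2 + 2) * d := by ring
  by_cases hσ : ∀ (v : DVal L) (k : ℤ), Hor P.x v → ω.Wt v k → k = -1 ∨ (k = 0 ∧ ¬ Contracted x v)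
  · exact Or.inl (H2.cbOut P hσ)
  right
  push Not at hσ
  obtain ⟨v, k, hv, hk, hk1, hk0⟩ := hσ
  obtain ⟨hX, hcon⟩ := H2.hor_curve hv
  have hle : k ≤ 0 := by
    refine H2.k_nonpos_R hc h hk ⟨hX, ?_⟩
    by_cases hY : v.v P.y < 0
    · exact Or.inr ⟨hY, hcon⟩
    · exact Or.inl ⟨Or.inr (by omega), fun h => hcon h.1⟩
  have hge := hc.h1 v k hk
  obtain rfl : k = 0 := by omega
  have hcv := hk0 rfl
  have hY : v.v P.y < 0 := by
    by_contra hY
    exact H2.main_curve hc h hbd hX (Or.inr (by omega)) (fun h => hcon h.1) hk hcv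
  obtain ⟨F, hF, hS⟩ := H2.delta_ruled hc h
  obtain ⟨P', hPx, hPy, hP'⟩ := h.inv
  -- the value of the bracket at σ
  have hbrne := P.br_ne ω
  have hval : v.v (ω.br P.x P.y) = 2 * v.v P.y := by
    obtain ⟨G, hG, hSG⟩ := id h.1
    obtain ⟨i, hi⟩ := hc.xmin v
    have := (curve_inf hG (fun j e he => (hSG j e he).1) (h.ex_deg hc.big hG)
      (hc.wp v 0 hk) hX hY hcon hi.1 hi.min).2
    linarith
  have hα : cf F (0, 2) ≠ 0 := by
    intro h0
    have hFeq : F = C (F.coeff 0) + C (F.coeff 1) * X := by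
      refine Polynomial.ext fun j => ?_
      rw [coeff_add, coeff_C, coeff_C_mul, coeff_X]
      rcases Nat.lt_or_ge 1 j with hj | hj
      · rw [if_neg (by omega), if_neg (by omega), mul_zero, add_zero]
        refine Polynomial.ext fun i => ?_
        rw [coeff_zero]
        by_contra hne
        have h1 := hS (i, j) hne
        dsimp only at h1
        have h2 : j = 2 := by omega
        have h3 : i = 0 := by omega
        subst h2
        subst h3
        exact hne h0
      · interval_cases j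
        · simp
        · simp
    have e1 : ω.br P.x P.y = aeval P.x (F.coeff 0) + aeval P.x (F.coeff 1) * P.y := by
      rw [← hF]
      conv_lhs => rw [hFeq]
      rw [_root_.map_add, _root_.map_mul, ev_C, ev_C, ev_X]
    have hy0 := P.y_ne
    have i0 := v.int_aeval hX (F.coeff 0)
    have i1 := v.int_aeval hX (F.coeff 1)
    have i2 : v.Int (ω.br P.x P.y / P.y) := by
      rw [e1, add_div, mul_div_assoc, div_self hy0, mul_one, div_eq_mul_inv]
      refine v.int_add (v.int_mul i0 (Or.inr ?_)) i1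
      rw [v.map_inv hy0]; omega
    have i3 := i2.resolve_left (div_ne_zero hbrne hy0)
    rw [v.map_div hbrne hy0, hval] at i3
    omega
  refine H2.coneF hc.h1 hc.ex hc.wp P P' hPx hPy F hF (by
    intro e he
    have := hS e he
    constructor <;> omega) hα ?_ ?_
  · intro w hwX hwY hwnc hw0
    obtain ⟨k', hk'⟩ := hc.ex w
    have h1 := (hc.wp w k' hk').b2 P hwX hwY hwnc
    obtain rfl : k' = 0 := by omega
    exact ⟨H2.main_curve hc h hbd hwX hwY hwnc hk', hk'⟩
  · intro w hwX hwY hwnc _ hw0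
    obtain ⟨k', hk'⟩ := hc.ex w
    have h1 := (hc.wp w k' hk').b2 P' hwX hwY hwnc
    obtain rfl : k' = 0 := by omega
    exact ⟨H2.main_curve hc hP' hbd hwX hwY hwnc hk', hk'⟩

/-- STEP 1, the alternatives: conic bundle, quadric cone, or a minimal plane structure. -/
theorem H2.asm1 {ω : Bracket L} {x : Fin (N + 1) → L} (hc : H2.Ctx ω x)
    (hr : ∃ a b : L, IntermediateField.adjoin ℂ {a, b} = ⊤) :
    CBOut ω x ∨ ConeOut ω x ∨ ∃ P q a, MinP2 x P q a := by
  obtain ⟨a, b, hab⟩ := hr
  obtain ⟨P0, -, -⟩ := H2.exists_coord ω hab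
  rcases trichotomy x hc.big P0 with ⟨P, q, d, b, n, h, hlt⟩ | ⟨P, q, d, h⟩ | ⟨P, q, d, h⟩ | h
  · exact Or.inl (H2.out1 hc h hlt)
  · exact Or.inl (H2.out2 hc h)
  · rcases H2.out3 hc h with h1 | h1
    · exact Or.inl h1
    · exact Or.inr (Or.inl h1)
  · exact Or.inr (Or.inr h)

end

end LCY
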