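import Pool.Agent.Helper51.LCY.P6
import Pool.Agent.Helper62.LCY.N4
import Pool.Agent.Helper11.LCY.State

/-!
Step 1 of MP_f7e214_ag, the initial state: definitions and statements.
-/

open Polynomial Pool.Agent.Helper82.LCY

namespace LCY

noncomputable section

variable {L : Type} [Field L] [Algebra ℂ L] {N : ℕ}

/-- The point `R` has multiplicity `a / 3` for the linear system `x`. -/
def H2.Mu (x : Fin (N + 1) → L) (a : ℕ) (R : Subalgebra ℂ L) : Prop :=
  ∃ (Q : Coord L) (q : L) (F : Fin (N + 1) → ℂ[X][X]) (m : ℕ), Q.loc = R ∧ Pol x Q q F ∧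
    LNorm F ∧ MOrd F m ∧ 3 * m = a

/-- The local presentation of the linear system at the point `R`, with the comparison of the
2-form with the function `h`. -/
def H2.LocDat (ω : Bracket L) (x : Fin (N + 1) → L) (a : ℕ) (h : L) (R : Subalgebra ℂ L) : Prop :=
  ∃ (Q : Coord L) (q : L) (F : Fin (N + 1) → ℂ[X][X]) (c : ℂ), Q.loc = R ∧ Pol x Q q F ∧
    LNorm F ∧ (∀ m, MOrd F m → 3 * m ≤ a) ∧ c ≠ 0 ∧
    ω.br Q.x Q.y ^ a = algebraMap ℂ L c * h * q ^ 3

/-- LOC. The local data at the points of the surface obtained from a minimal plane by blowing up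
points of multiplicity `a / 3`, with `h = br(x, y) ^ a / q ^ 3`. -/
def H2.ST_LOC : Prop := ∀ (L : Type) [Field L] [Algebra ℂ L] (N : ℕ) (ω : Bracket L)
  (x : Fin (N + 1) → L), Big ω x → ∀ (P : Coord L) (q : L) (a : ℕ), MinP2 x P q a →
  ∀ (k : ℕ) (T : PStr L k), T.S = P → (∀ i, H2.Mu x a (T.R i)) →
  ∀ j, j ≤ k → ∀ R ∈ surf T.S T.R j, H2.LocDat ω x a (ω.br P.x P.y ^ a / q ^ 3) R

/-- The local data are intrinsic. -/
def H2.ST_LOCU : Prop := ∀ (L : Type) [Field L] [Algebra ℂ L] (N : ℕ)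
  (x : Fin (N + 1) → L) (Q Q' : Coord L) (q q' : L) (F F' : Fin (N + 1) → ℂ[X][X]),
  Q.loc = Q'.loc → Pol x Q q F → LNorm F → Pol x Q' q' F' → LNorm F' →
  (∀ m, MOrd F m → MOrd F' m) ∧ q / q' ∈ Q.loc ∧ q' / q ∈ Q.loc

/-- CON. A contracted curve outside the divisor of poles has no common point with it on a surface
where all points of multiplicity `a / 3` are blown up. -/
def H2.ST_CON : Prop := ∀ (L : Type) [Field L] [Algebra ℂ L] (N : ℕ) (ω : Bracket L)
  (x : Fin (N + 1) → L), Big ω x → (∀ v k, ω.Wt v k → -1 ≤ k) →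
  (∀ v k, ω.Wt v k → ¬ Contracted x v → k ≤ 0) → (∀ v, ∃ k, ω.Wt v k) →
  (∀ v k, ω.Wt v k → WtProp ω v k) → NR x → ∀ (a : ℕ) (h : L), 0 < a → h ≠ 0 →
  (∀ v k m, ω.Wt v k → IsMin x v m → 3 * m ≤ a * k + v.v h) →
  ∀ R : Subalgebra ℂ L, H2.LocDat ω x a h R → ¬ H2.Mu x a R → ∀ v w : DVal L,
  Through R v → Through R w → ω.Wt v 0 → Contracted x v → ω.Wt w (-1) → False

end

end LCY
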