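import Pool.Agent.Helper2.LCY.E7
import Pool.Agent.Helper62.LCY.N6
import Pool.Agent.Helper97.LCY.SBase

/-!
Step 1 of MP_f7e214_ag: the initial state. Members of the linear system as divisors, the
anticanonical class is nef, at most eight points.
-/

open Polynomial Pool.Agent.Helper82.LCY

namespace LCY

noncomputable section

variable {L : Type} [Field L] [Algebra ℂ L] {N : ℕ}

/-! ### Minimal values -/

theorem H2.isMin_of {x : Fin (N + 1) → L} {v : DVal L} {i : Fin (N + 1)} (h : XMin x v i) :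
    IsMin x v (v.v (x i)) := ⟨h.min, i, h.1, rfl⟩

theorem H2.min_eq {x : Fin (N + 1) → L} {v : DVal L} {i : Fin (N + 1)} {m : ℤ}
    (hm : IsMin x v m) (h : XMin x v i) : v.v (x i) = m := by
  obtain ⟨j, hj, hj2⟩ := hm.2
  have h1 := hm.1 i h.1
  have h2 := h.min j hj
  omega

theorem H2.xmin_of {x : Fin (N + 1) → L} {v : DVal L} {m : ℤ} (hm : IsMin x v m) :
    ∃ i, XMin x v i ∧ v.v (x i) = m := by
  obtain ⟨i, hi, hi2⟩ := hm.2
  refine ⟨i, ⟨hi, fun j => ?_⟩, hi2⟩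
  by_cases hj : x j = 0
  · left; rw [hj, zero_div]
  · right
    have := hm.1 j hj
    rw [v.map_div hj hi]; omega

theorem H2.xmin_same {x : Fin (N + 1) → L} {v w : DVal L} (h : v.Same w) {i : Fin (N + 1)}
    (hi : XMin x v i) : XMin x w i := ⟨hi.1, fun j => H97.int_congr h (hi.2 j)⟩

theorem H2.pos_same {v w : DVal L} (h : v.Same w) {z : L} (hz : v.Pos z) : w.Pos z := by
  by_cases h0 : z = 0
  · exact Or.inl h0
  · rcases hz with h1 | h1
    · exact absurd h1 h0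
    · exact Or.inr (by rw [← h z h0]; exact h1)

/-! ### The equality along the curves of the surface -/

/-- A surface obtained from the plane `P` by blowing up points of multiplicity `a / 3`. -/
structure H2.MuSeq (x : Fin (N + 1) → L) (P : Coord L) (a : ℕ) {k : ℕ} (T : PStr L k) : Prop where
  S : T.S = P
  mu : ∀ i, H2.Mu x a (T.R i)

theorem H2.conHyp {ω : Bracket L} {x : Fin (N + 1) → L} (hc : H2.Ctx ω x) {P : Coord L}
    {q : L} {a : ℕ} (h : MinP2 x P q a) : H62.ConHyp ω x a (ω.br P.x P.y ^ a / q ^ 3) := by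
  obtain ⟨F, hF, -⟩ := id h.1
  have hbr := P.br_ne ω
  refine ⟨hc.h2, hc.ex, hc.nr, hc.wp, div_ne_zero (pow_ne_zero _ hbr) (pow_ne_zero _ hF.1),
    h.1.pos hc.big, ?_⟩
  intro v k i hk hi
  have h1 := h.theta hc.big (hc.wp v k hk) hi.1 hi.min
  rw [v.map_div (pow_ne_zero _ hbr) (pow_ne_zero _ hF.1), v.map_pow hbr, v.map_pow hF.1]
  push_cast
  linarith

theorem H2.eq_curve {ω : Bracket L} {x : Fin (N + 1) → L} (hc : H2.Ctx ω x) {a : ℕ} {h : L}
    (h0 : h ≠ 0) {R : Subalgebra ℂ L} (hR : H2.LocDat ω x a h R) {v : DVal L} (hv : Through R v)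
    {n : ℤ} (hn : ω.Wt v n) {i : Fin (N + 1)} (hi : XMin x v i) :
    (a : ℤ) * n + v.v h = 3 * v.v (x i) := by
  obtain ⟨Q, q, F, c, rfl, hF, hL, -, hc0, hh⟩ := hR
  have h1 := H62.through_br (hc.wp v n hn) hv
  have h2 := H62.through_lnorm hF hL hv hi
  have hbr := Q.br_ne ω
  rw [v.map_mul _ _ hF.1 hi.1] at h2
  have h3 := congrArg v.v hh
  rw [v.map_pow hbr, mul_assoc, v.map_const_mul hc0 (mul_ne_zero h0 (pow_ne_zero _ hF.1)),
    v.map_mul _ _ h0 (pow_ne_zero _ hF.1), v.map_pow hF.1, h1] at h3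
  push_cast at h3
  linarith

/-! ### The data of the surface -/

/-- The facts about a surface used in the sequel. -/
structure H2.BD (ω : Bracket L) (x : Fin (N + 1) → L) (a : ℕ) (h : L) {k : ℕ} (T : PStr L k)
    (w μ : DVal L → ℤ) : Prop where
  ctx : H2.Ctx ω x
  con : H62.ConHyp ω x a h
  hw : ∀ v, ω.Wt v (w v)
  hμ : ∀ v, IsMin x v (μ v)
  sys : ∀ v, T.Cur v → (a : ℤ) * w v + v.v h = 3 * μ v
  b1 : ∀ f : L, f ≠ 0 → T.IsDiv (fun v => v.v f) ∧ T.clD (fun v => v.v f) = 0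
  b2 : T.IsDiv w ∧ T.clD w = KK
  c3 : ∀ v w, T.Cur v → T.Cur w → ¬ v.Same w → 0 ≤ ip (T.cl v) (T.cl w)
  c4 : ∀ v w, T.Cur v → T.Cur w → ¬ v.Same w →
    (ip (T.cl v) (T.cl w) = 0 ↔ ∀ R ∈ T.X, Through R v → ¬ Through R w)
  a16 : ∀ R ∈ T.X, ∃ P : Coord L, P.loc = R

/-- The two facts about 2-forms needed for the canonical class. -/
theorem H2.b2k {ω : Bracket L} (hwp : ∀ v k, ω.Wt v k → WtProp ω v k) {w : DVal L → ℤ}
    (hw : ∀ v, ω.Wt v (w v)) :
    (∀ (Q : Coord L) (v : DVal L), v.Int Q.x → v.Int Q.y → Through Q.loc v →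
      ω.br Q.x Q.y ≠ 0 ∧ v.v (ω.br Q.x Q.y) = - w v) ∧
    ∀ (Q : Coord L) (v : DVal L), IsOrd Q.loc v → v.v (ω.br Q.x Q.y) = 1 - w v := by
  constructor
  · intro Q v _ _ hv
    exact ⟨Q.br_ne ω, H62.through_br (hwp v _ (hw v)) hv⟩
  · intro Q v hv
    have hs : v.Same Q.ord := isOrd_iff.1 hv
    have hxne := Q.x_ne
    have hyne := Q.y_ne
    have hbr := Q.br_ne ω
    have hvx : v.v Q.x = 1 := by rw [hs _ hxne]; exact H62.ord_x Q
    have hvy : v.v Q.y = 1 := by rw [hs _ hyne]; exact H62.ord_y Q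
    have hx : (Q.st (some 0)).x = Q.x := Q.st_some_x 0
    have hy : (Q.st (some 0)).y = Q.y / Q.x := by rw [Q.st_some_y]; simp
    have h1 := (hwp v _ (hw v)).b2 (Q.st (some 0)) (by rw [hx]; right; omega)
      (by rw [hy]; right; rw [v.map_div hyne hxne]; omega) (by
        rintro ⟨-, c, hcc⟩
        rw [hy] at hcc
        have h2 := H2.pos_same hs hcc
        have h3 := (H62.resTr_ord Q) (X - C c) (X_sub_C_ne_zero c)
        rw [_root_.map_sub, aeval_X, aeval_C] at h3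
        rcases h2 with h4 | h4
        · exact h3.1 h4
        · omega)
    rw [hx, hy, ω.br_div hxne, v.map_mul _ _ (inv_ne_zero hxne) hbr, v.map_inv hxne, hvx] at h1
    linarith

theorem H2.exists_bd (hLOC : H2.ST_LOC) (h16 : ST_A16) (hB1 : ST_B1) (hB2 : ST_B2K)
    (hC3 : ST_C3) (hC4 : ST_C4) {ω : Bracket L} {x : Fin (N + 1) → L} (hc : H2.Ctx ω x)
    {P : Coord L} {q : L} {a : ℕ} (h : MinP2 x P q a) {k : ℕ} (T : PStr L k)
    (hT : H2.MuSeq x P a T) :
    ∃ w μ : DVal L → ℤ, H2.BD ω x a (ω.br P.x P.y ^ a / q ^ 3) T w μ := by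
  choose w hw using hc.ex
  have hex : ∀ v, ∃ m, IsMin x v m := fun v => by
    obtain ⟨i, hi⟩ := hc.xmin v
    exact ⟨_, H2.isMin_of hi⟩
  choose μ hμ using hex
  have hcon := H2.conHyp hc h
  obtain ⟨h1, h2⟩ := H2.b2k hc.wp hw
  refine ⟨w, μ, hc, hcon, hw, hμ, ?_, hB1 L k T, hB2 L k T ω w hw h1 h2, hC3 L k T, hC4 L k T,
    fun R hR => h16 L k T k R hR⟩
  rintro v ⟨R, hR, hv⟩
  obtain ⟨i, hi⟩ := hc.xmin v
  have h3 := H2.eq_curve hc hcon.h0 (hLOC L N ω x hc.big P q a h k T hT.S hT.mu k le_rfl R hR) hv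
    (hw v) hi
  rw [H2.min_eq (hμ v) hi] at h3
  exact h3

variable {ω : Bracket L} {x : Fin (N + 1) → L} {a : ℕ} {h : L} {k : ℕ} {T : PStr L k}
  {w μ : DVal L → ℤ}

theorem H2.BD.μ_eq (H : H2.BD ω x a h T w μ) {v : DVal L} {i : Fin (N + 1)} (hi : XMin x v i) :
    v.v (x i) = μ v := H2.min_eq (H.hμ v) hi

theorem H2.BD.μ_same (H : H2.BD ω x a h T w μ) {v v' : DVal L} (hs : v.Same v') :
    μ v = μ v' := by
  obtain ⟨i, hi⟩ := H.ctx.xmin v
  rw [← H.μ_eq hi, ← H.μ_eq (H2.xmin_same hs hi), hs _ hi.1]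

/-- The weights along the curves. -/
theorem H2.BD.wt (H : H2.BD ω x a h T w μ) {v : DVal L} (hv : T.Cur v) : w v = 0 ∨ w v = -1 := by
  obtain ⟨i, hi⟩ := H.ctx.xmin v
  have h1 := (H.con.int hi.1 hi).1
  have h2 := H.con.quot hi.1
  have h3 := h1.resolve_left h2.1
  rw [h2.2, H.μ_eq hi] at h3
  have h4 := H.sys v hv
  have h5 := H.ctx.h1 v _ (H.hw v)
  have h6 : (0 : ℤ) < a := by exact_mod_cast H.con.pos
  have h7 : w v ≤ 0 := by
    by_contra hcon
    push Not at hcon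
    have : (0 : ℤ) < a * w v := mul_pos h6 hcon
    linarith
  omega

/-- A member of the linear system. -/
def H2.Mem (μ : DVal L → ℤ) (y : L) : Prop := y ≠ 0 ∧ ∀ v : DVal L, μ v ≤ v.v y

theorem H2.BD.mem_x (H : H2.BD ω x a h T w μ) {i : Fin (N + 1)} (hi : x i ≠ 0) :
    H2.Mem μ (x i) := ⟨hi, fun v => (H.hμ v).1 i hi⟩

theorem H2.BD.mem_sum (H : H2.BD ω x a h T w μ) (c : Fin (N + 1) → ℂ) (v : DVal L) :
    (∑ i, algebraMap ℂ L (c i) * x i) = 0 ∨ μ v ≤ v.v (∑ i, algebraMap ℂ L (c i) * x i) := by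
  have key : ∀ s : Finset (Fin (N + 1)), (∑ i ∈ s, algebraMap ℂ L (c i) * x i) = 0 ∨
      μ v ≤ v.v (∑ i ∈ s, algebraMap ℂ L (c i) * x i) := by
    classical
    intro s
    induction s using Finset.induction_on with
    | empty => left; rw [Finset.sum_empty]
    | insert j s hj ih =>
      rw [Finset.sum_insert hj]
      by_cases h0 : algebraMap ℂ L (c j) * x j = 0
      · rw [h0, zero_add]; exact ih
      by_cases h1 : (∑ i ∈ s, algebraMap ℂ L (c i) * x i) = 0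
      · rw [h1, add_zero]
        right
        have hcj : c j ≠ 0 := by
          intro h2
          rw [h2, map_zero, zero_mul] at h0
          exact h0 rfl
        have hxj : x j ≠ 0 := right_ne_zero_of_mul h0
        rw [v.map_const_mul hcj hxj]
        exact (H.hμ v).1 j hxj
      by_cases h2 : algebraMap ℂ L (c j) * x j + ∑ i ∈ s, algebraMap ℂ L (c i) * x i = 0
      · exact Or.inl h2
      right
      have hcj : c j ≠ 0 := by
        intro h3
        rw [h3, map_zero, zero_mul] at h0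
        exact h0 rfl
      have hxj : x j ≠ 0 := right_ne_zero_of_mul h0
      have h3 := v.map_add _ _ h0 h1 h2
      have h4 : μ v ≤ v.v (algebraMap ℂ L (c j) * x j) := by
        rw [v.map_const_mul hcj hxj]
        exact (H.hμ v).1 j hxj
      exact le_trans (le_min h4 (ih.resolve_left h1)) h3
  exact key Finset.univ

/-- The divisor of a member. -/
theorem H2.BD.isDiv (H : H2.BD ω x a h T w μ) {y : L} (hy : y ≠ 0) :
    T.IsDiv (fun v => v.v y - μ v) := by
  refine (((H.b1 y hy).1.union H.b2.1).union (H.b1 h H.con.h0).1).subset ?_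
  rintro v ⟨hv, hne⟩
  by_cases h1 : v.v y = 0
  · by_cases h2 : w v = 0
    · right
      refine ⟨hv, fun h3 => hne ?_⟩
      have h4 := H.sys v hv.2
      have h3' : v.v h = 0 := h3
      rw [h2, h3'] at h4
      show v.v y - μ v = 0
      rw [h1]
      omega
    · exact Or.inl (Or.inr ⟨hv, h2⟩)
  · exact Or.inl (Or.inl ⟨hv, h1⟩)

/-- Three times the class of a member is `- a K`. -/
theorem H2.BD.cl (H : H2.BD ω x a h T w μ) {y : L} (hy : y ≠ 0) :
    (3 : ℤ) • T.clD (fun v => v.v y - μ v) = -(a : ℤ) • KK := by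
  have hd := H.isDiv hy
  have e1 : T.clD (fun v => 3 * (v.v y - μ v)) =
      T.clD (fun v => 3 * v.v y + ((-(a : ℤ)) * w v + (-1) * v.v h)) := by
    refine H97.clD_congr fun v hv => ?_
    have := H.sys v hv.2
    linarith
  have d1 := H97.isDiv_smul 3 (H.b1 y hy).1
  have d2 := H97.isDiv_smul (-(a : ℤ)) H.b2.1
  have d3 := H97.isDiv_smul (-1) (H.b1 h H.con.h0).1
  rw [← H97.clD_smul 3 hd, e1, H97.clD_add d1 (H97.isDiv_add d2 d3), H97.clD_add d2 d3,
    H97.clD_smul _ (H.b1 y hy).1, H97.clD_smul _ H.b2.1, H97.clD_smul _ (H.b1 h H.con.h0).1,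
    (H.b1 y hy).2, (H.b1 h H.con.h0).2, H.b2.2, smul_zero, smul_zero, zero_add, add_zero]

/-- Intersection numbers with the class of a divisor. -/
theorem H2.ip_clD {D : DVal L → ℤ} (hD : T.IsDiv D) (c : Cl ℤ (Fin k)) :
    ip (T.clD D) c = ∑ᶠ v ∈ T.C, D v * ip (T.cl v) c := by
  have h := AddMonoidHom.map_finsum_mem' (f := fun v => D v • T.cl v) (s := T.C)
    ({ toFun := fun b => ip b c, map_zero' := ip_zero_left c,
       map_add' := fun b b' => ip_add_left b b' c } : Cl ℤ (Fin k) →+ ℤ) ?_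
  · refine h.trans (finsum_mem_congr rfl fun v _ => ?_)
    exact ip_smul_left _ _ _
  · refine hD.subset fun v hv => ⟨hv.1, fun h0 => hv.2 ?_⟩
    show D v • T.cl v = 0
    rw [h0, zero_smul]

theorem H2.ip_clD_nonneg {D : DVal L → ℤ} (hD : T.IsDiv D) (c : Cl ℤ (Fin k))
    (h : ∀ v ∈ T.C, 0 ≤ D v * ip (T.cl v) c) : 0 ≤ ip (T.clD D) c := by
  rw [H2.ip_clD hD]
  exact finsum_nonneg fun v => finsum_nonneg fun hv => h v hv

theorem H2.ip_clD_zero {D : DVal L → ℤ} (hD : T.IsDiv D) (c : Cl ℤ (Fin k))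
    (h : ∀ v ∈ T.C, 0 ≤ D v * ip (T.cl v) c) (h0 : ip (T.clD D) c = 0) :
    ∀ v ∈ T.C, D v ≠ 0 → ip (T.cl v) c = 0 := by
  rw [H2.ip_clD hD] at h0
  intro v hv hDv
  have hfin : (T.C ∩ Function.support fun v => D v * ip (T.cl v) c).Finite := by
    refine hD.subset fun v hv => ⟨hv.1, fun h0 => hv.2 ?_⟩
    show D v * ip (T.cl v) c = 0
    rw [h0, zero_mul]
  by_contra hne
  have h1 : 0 < D v * ip (T.cl v) c := lt_of_le_of_ne (h v hv) (mul_ne_zero hDv hne).symm
  have h2 : 0 < ∑ᶠ v ∈ T.C, D v * ip (T.cl v) c := by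
    rw [finsum_mem_eq_sum_of_inter_support_eq _ (t := hfin.toFinset) (by
      ext u
      simp only [Set.mem_inter_iff, Set.Finite.coe_toFinset]
      tauto)]
    refine Finset.sum_pos' (fun u hu => ?_) ⟨v, ?_, h1⟩
    · rw [Set.Finite.mem_toFinset] at hu
      exact h u hu.1
    · rw [Set.Finite.mem_toFinset]
      exact ⟨hv, h1.ne'⟩
  omega

/-- The anticanonical class is nef. -/
theorem H2.BD.nef (H : H2.BD ω x a h T w μ) {v : DVal L} (hv : T.Cur v) :
    ip KK (T.cl v) ≤ 0 := by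
  obtain ⟨i, hi⟩ := H.ctx.xmin v
  have h1 := H.cl hi.1
  have h2 : 0 ≤ ip (T.clD (fun u => u.v (x i) - μ u)) (T.cl v) := by
    refine H2.ip_clD_nonneg (H.isDiv hi.1) _ fun u hu => ?_
    by_cases hs : u.Same v
    · rw [hs _ hi.1, H.μ_same hs, H.μ_eq hi, sub_self, zero_mul]
    · exact mul_nonneg (sub_nonneg.2 ((H.hμ u).1 i hi.1)) (H.c3 u v hu.2 hv hs)
  have h3 : ip ((3 : ℤ) • T.clD (fun u => u.v (x i) - μ u)) (T.cl v) =
      ip (-(a : ℤ) • KK) (T.cl v) := by rw [h1]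
  rw [ip_smul_left, ip_smul_left] at h3
  have h6 : (0 : ℤ) < a := by exact_mod_cast H.con.pos
  by_contra hcon
  push Not at hcon
  have : (0 : ℤ) < a * ip KK (T.cl v) := mul_pos h6 hcon
  linarith

end

end LCY
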