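import Pool.Agent.Helper2.LCY.E8
import Pool.Agent.Helper98.LCY.LocF

/-!
Step 1 of MP_f7e214_ag: contracted curves outside the divisor of poles, at most eight points, the
initial state.
-/

open Polynomial Pool.Agent.Helper82.LCY

namespace LCY

noncomputable section

variable {L : Type} [Field L] [Algebra ℂ L] {N : ℕ}

variable {ω : Bracket L} {x : Fin (N + 1) → L} {a : ℕ} {h : L} {k : ℕ} {T : PStr L k}
  {w μ : DVal L → ℤ}

/-- The condition (con) of the state. -/
theorem H2.BD.conEq (H : H2.BD ω x a h T w μ)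
    (hdis : ∀ R ∈ T.X, ∀ v u : DVal L, Through R v → Through R u → ω.Wt v 0 →
      Contracted x v → ω.Wt u (-1) → False)
    {v : DVal L} (hv : T.Cur v) (hv0 : ω.Wt v 0) (hvc : Contracted x v) :
    ip KK (T.cl v) = 0 := by
  rw [← H.b2.2, H2.ip_clD H.b2.1]
  refine (finsum_mem_congr rfl fun u hu => ?_).trans (finsum_mem_zero _)
  rcases H.wt hu.2 with h1 | h1
  · rw [h1, zero_mul]
  · have hu1 : ω.Wt u (-1) := by rw [← h1]; exact H.hw u
    have h2 : ∀ R ∈ T.X, Through R u → ¬ Through R v := fun R hR h3 h4 =>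
      hdis R hR v u h4 h3 hv0 hvc hu1
    have hns : ¬ u.Same v := by
      intro hs
      obtain ⟨R, hR, h3⟩ := hu.2
      exact h2 R hR h3 (H97.through_congr hs h3)
    rw [(H.c4 u v hu.2 hv hns).2 h2, mul_zero]

/-- With nine points all components of members are contracted. -/
theorem H2.BD.contr9 (H : H2.BD ω x a h T w μ) (hk : k = 9) {y : L} (hy : H2.Mem μ y)
    {v : DVal L} (hv : v ∈ T.C) (hyv : v.v y ≠ μ v) : Contracted x v := by
  have hKK : ip (KK : Cl ℤ (Fin k)) KK = 0 := by
    rw [ip_KK_KK, Fintype.card_fin, hk]; norm_num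
  have h3 : (3 : ℤ) ≠ 0 := by norm_num
  -- intersection with K
  have hvK : ip (T.cl v) (-KK) = 0 := by
    refine H2.ip_clD_zero (H.isDiv hy.1) _ (fun u hu => ?_) ?_ v hv (sub_ne_zero.2 hyv)
    · refine mul_nonneg (sub_nonneg.2 (hy.2 u)) ?_
      rw [ip_comm, ip_neg_left]
      have := H.nef hu.2
      omega
    · have e1 : ip ((3 : ℤ) • T.clD (fun u => u.v y - μ u)) (-KK) = 0 := by
        rw [H.cl hy.1, ip_smul_left, ip_neg_right, hKK, neg_zero, mul_zero]
      rw [ip_smul_left] at e1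
      exact (mul_eq_zero.1 e1).resolve_left h3
  -- disjointness from the members that do not contain v
  have hdis : ∀ y' : L, H2.Mem μ y' → v.v y' = μ v → ∀ u ∈ T.C, u.v y' ≠ μ u →
      ∀ R ∈ T.X, Through R u → ¬ Through R v := by
    intro y' hy' hv' u hu hne
    have hpos : ∀ u ∈ T.C, 0 ≤ (u.v y' - μ u) * ip (T.cl u) (T.cl v) := by
      intro u hu
      by_cases hs : u.Same v
      · rw [hs _ hy'.1, H.μ_same hs, hv', sub_self, zero_mul]
      · exact mul_nonneg (sub_nonneg.2 (hy'.2 u)) (H.c3 u v hu.2 hv.2 hs)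
    have e1 : ip ((3 : ℤ) • T.clD (fun u => u.v y' - μ u)) (T.cl v) = 0 := by
      rw [H.cl hy'.1, ip_smul_left, ip_comm]
      rw [ip_neg_right] at hvK
      rw [neg_eq_zero.1 hvK, mul_zero]
    rw [ip_smul_left] at e1
    have e2 := H2.ip_clD_zero (H.isDiv hy'.1) _ hpos ((mul_eq_zero.1 e1).resolve_left h3) u hu
      (sub_ne_zero.2 hne)
    have hns : ¬ u.Same v := by
      intro hs
      apply hne
      rw [hs _ hy'.1, H.μ_same hs, hv']
    exact (H.c4 u v hu.2 hv.2 hns).1 e2
  have hdis' : ∀ y' : L, H2.Mem μ y' → v.v y' = μ v → ∀ R ∈ T.X, Through R v →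
      ∀ u, Through R u → u.v y' = μ u := by
    intro y' hy' hv' R hR hRv u hRu
    by_contra hne
    have hs := H97.nrm_same u
    have hu' : Through R (H97.nrm u) := H97.through_congr hs hRu
    refine hdis y' hy' hv' (H97.nrm u) ⟨H97.nrm_zero u, R, hR, hu'⟩ ?_ R hR hu' hRv
    rw [← hs _ hy'.1, ← H.μ_same hs]
    exact hne
  intro i hi0 hint j
  have hi : XMin x v i := ⟨hi0, hint⟩
  by_contra hcon
  push Not at hcon
  obtain ⟨R, hR, hRv⟩ := hv.2
  obtain ⟨Q, rfl⟩ := H.a16 R hR
  have hmi := H.mem_x hi0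
  have hui : ∀ u, Through Q.loc u → u.v (x i) = μ u := hdis' (x i) hmi (H.μ_eq hi) _ hR hRv
  have hf : x j / x i ∈ Q.loc := by
    rw [H81.st_A9 L Q]
    intro u hu
    by_cases hj : x j = 0
    · left; rw [hj, zero_div]
    · right
      have := (H.hμ u).1 j hj
      rw [u.map_div hj hi0, hui u hu]; omega
  obtain ⟨c, hc⟩ := H98.exists_residue hf
  have hfc : x j / x i - algebraMap ℂ L c ≠ 0 := fun h0 => hcon c (Or.inl h0)
  have hvfc : v.v (x j / x i - algebraMap ℂ L c) = 0 := by
    have h1 := (v.int_sub (hint j) (v.int_const c)).resolve_left hfc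
    have h2 := hcon c
    unfold DVal.Pos at h2
    push Not at h2
    have := h2.2
    omega
  -- the member x j - c x i
  have hyeq : ∑ l, algebraMap ℂ L (if l = j then 1 else 0) * x l -
      algebraMap ℂ L c * ∑ l, algebraMap ℂ L (if l = i then 1 else 0) * x l =
      ∑ l, algebraMap ℂ L ((if l = j then 1 else 0) - c * (if l = i then 1 else 0)) * x l := by
    rw [Finset.mul_sum, ← Finset.sum_sub_distrib]
    refine Finset.sum_congr rfl fun l _ => ?_
    rw [_root_.map_sub, _root_.map_mul]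
    ring
  have hsing : ∀ i : Fin (N + 1), ∑ l, algebraMap ℂ L (if l = i then 1 else 0) * x l = x i := by
    intro i
    rw [Finset.sum_eq_single i (fun l _ hl => by rw [if_neg hl, map_zero, zero_mul])
      (fun h => absurd (Finset.mem_univ i) h), if_pos rfl, map_one, one_mul]
  rw [hsing, hsing] at hyeq
  have hy2 : x j - algebraMap ℂ L c * x i = (x j / x i - algebraMap ℂ L c) * x i := by
    field_simp
  have hyne : x j - algebraMap ℂ L c * x i ≠ 0 := by
    rw [hy2]; exact mul_ne_zero hfc hi0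
  have hmem : H2.Mem μ (x j - algebraMap ℂ L c * x i) := by
    refine ⟨hyne, fun u => ?_⟩
    rw [hyeq] at hyne ⊢
    exact (H.mem_sum _ u).resolve_left hyne
  have hvy : v.v (x j - algebraMap ℂ L c * x i) = μ v := by
    rw [hy2, v.map_mul _ _ hfc hi0, hvfc, H.μ_eq hi, zero_add]
  have huy := hdis' _ hmem hvy _ hR hRv
  -- a curve through the point where x j / x i - c vanishes
  have hninv : (x j / x i - algebraMap ℂ L c)⁻¹ ∉ Q.loc := H98.mx_not_inv hc hfc
  apply hninv
  rw [H81.st_A9 L Q]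
  intro u hu
  have h1 := huy u hu
  have h2 := hui u hu
  rw [hy2, u.map_mul _ _ hfc hi0, h2] at h1
  right
  rw [u.map_inv hfc]
  omega

/-- Only finitely many curves are contracted. -/
theorem H2.BD.fin_contr (H : H2.BD ω x a h T w μ) :
    {v | v ∈ T.C ∧ Contracted x v}.Finite := by
  obtain ⟨i, j, l, hl, hbr⟩ := H.ctx.big
  refine ((H.isDiv hl).union (H.b2.1.union (H.b1 _ hbr).1)).subset ?_
  rintro v ⟨hv, hc⟩
  by_cases h1 : v.v (x l) - μ v = 0
  swap
  · exact Or.inl ⟨hv, h1⟩
  right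
  by_cases h2 : w v = 0
  swap
  · exact Or.inl ⟨hv, h2⟩
  right
  refine ⟨hv, ?_⟩
  have hint : ∀ m, v.Int (x m / x l) := by
    intro m
    by_cases hm : x m = 0
    · left; rw [hm, zero_div]
    · right
      have := (H.hμ v).1 m hm
      rw [v.map_div hm hl]; omega
  obtain ⟨c, hcc⟩ := hc l hl hint i
  obtain ⟨d, hd⟩ := hc l hl hint j
  have e1 : ω.br (x i / x l - algebraMap ℂ L c) (x j / x l - algebraMap ℂ L d) =
      ω.br (x i / x l) (x j / x l) := by
    rw [ω.sub_left, ω.sub_right, ω.sub_right, ω.const_right, ω.const_left, ω.const_left]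
    ring
  have n1 : x i / x l - algebraMap ℂ L c ≠ 0 := by
    intro h0
    rw [h0, ω.zero_left] at e1
    exact hbr e1.symm
  have n2 : x j / x l - algebraMap ℂ L d ≠ 0 := by
    intro h0
    rw [h0, ω.zero_right] at e1
    exact hbr e1.symm
  have h3 := (H.ctx.wp v _ (H.hw v)).br9 _ _ n1 n2 (by rw [e1]; exact hbr)
  rw [e1, h2] at h3
  have h4 := hcc.resolve_left n1
  have h5 := hd.resolve_left n2
  show v.v (ω.br (x i / x l) (x j / x l)) ≠ 0
  omega

/-- A general member contains none of finitely many given curves. -/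
theorem H2.BD.general (H : H2.BD ω x a h T w μ) {Z : Set (DVal L)} (hZ : Z.Finite) :
    ∃ y, H2.Mem μ y ∧ ∀ v ∈ Z, v.v y = μ v := by
  classical
  set Φ : (Fin (N + 1) → ℂ) → L := fun c => ∑ i, algebraMap ℂ L (c i) * x i with hΦ
  have hΦadd : ∀ c d, Φ (c + d) = Φ c + Φ d := by
    intro c d
    simp only [hΦ, Pi.add_apply, map_add, add_mul, Finset.sum_add_distrib]
  have hΦsmul : ∀ (r : ℂ) c, Φ (r • c) = algebraMap ℂ L r * Φ c := by
    intro r c
    simp only [hΦ, Pi.smul_apply, smul_eq_mul, map_mul, Finset.mul_sum, mul_assoc]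
  have hΦ0 : Φ 0 = 0 := by
    simp only [hΦ, Pi.zero_apply, map_zero, zero_mul, Finset.sum_const_zero]
  have hΦs : ∀ i, Φ (Pi.single i 1) = x i := by
    intro i
    show ∑ l, algebraMap ℂ L ((Pi.single i (1 : ℂ) : Fin (N + 1) → ℂ) l) * x l = x i
    rw [Finset.sum_eq_single i (fun l _ hl => by
        rw [Pi.single_eq_of_ne hl, map_zero, zero_mul])
      (fun h => absurd (Finset.mem_univ i) h), Pi.single_eq_same, map_one, one_mul]
  let p : DVal L → Submodule ℂ (Fin (N + 1) → ℂ) := fun v =>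
    { carrier := {c | Φ c = 0 ∨ μ v < v.v (Φ c)}
      zero_mem' := Or.inl hΦ0
      add_mem' := by
        intro c d hc hd
        by_cases h0 : Φ (c + d) = 0
        · exact Or.inl h0
        right
        rw [hΦadd] at h0 ⊢
        by_cases h1 : Φ c = 0
        · rcases hd with h2 | h2
          · rw [h1, h2, add_zero] at h0; exact absurd rfl h0
          · rwa [h1, zero_add]
        by_cases h2 : Φ d = 0
        · rcases hc with h3 | h3
          · exact absurd h3 h1
          · rwa [h2, add_zero]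
        have h3 := hc.resolve_left h1
        have h4 := hd.resolve_left h2
        exact lt_of_lt_of_le (lt_min h3 h4) (v.map_add _ _ h1 h2 h0)
      smul_mem' := by
        intro r c hc
        by_cases h0 : Φ (r • c) = 0
        · exact Or.inl h0
        right
        rw [hΦsmul] at h0 ⊢
        have hr : r ≠ 0 := by
          rintro rfl
          rw [map_zero, zero_mul] at h0
          exact h0 rfl
        have hc0 : Φ c ≠ 0 := right_ne_zero_of_mul h0
        rw [v.map_const_mul hr hc0]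
        exact hc.resolve_left hc0 }
  have hp : ∀ v, p v ≠ ⊤ := by
    intro v htop
    obtain ⟨i, hi⟩ := H.ctx.xmin v
    have h1 : (Pi.single i 1 : Fin (N + 1) → ℂ) ∈ p v := by rw [htop]; exact Submodule.mem_top
    have h2 : Φ (Pi.single i 1) = 0 ∨ μ v < v.v (Φ (Pi.single i 1)) := h1
    rw [hΦs, H.μ_eq hi] at h2
    rcases h2 with h2 | h2
    · exact hi.1 h2
    · omega
  -- an extra condition: y ≠ 0
  obtain ⟨v0⟩ : Nonempty (DVal L) := by
    obtain ⟨i, j, l, hl, hbr⟩ := H.ctx.big
    by_contra hcon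
    rw [not_nonempty_iff] at hcon
    have h1 : T.clD (fun v => v.v (x l) - μ v) = 0 := by
      unfold PStr.clD
      refine (finsum_mem_congr rfl fun v _ => ?_).trans (finsum_mem_zero _)
      exact (hcon.false v).elim
    have h2 := H.cl hl
    rw [h1, smul_zero] at h2
    have h3 := congrArg Prod.fst h2
    simp only [KK, Prod.smul_fst, smul_eq_mul, Prod.fst_zero] at h3
    have h4 : (0 : ℤ) < a := by exact_mod_cast H.con.pos
    omega
  set s : Finset (Submodule ℂ (Fin (N + 1) → ℂ)) := (insert v0 hZ.toFinset).image p with hs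
  have htop : (⊤ : Submodule ℂ (Fin (N + 1) → ℂ)) ∉ s := by
    rw [hs, Finset.mem_image]
    rintro ⟨v, -, hv⟩
    exact hp v hv
  have h1 := Subspace.biUnion_ne_univ_of_top_notMem htop
  obtain ⟨c, hc⟩ := (Set.ne_univ_iff_exists_notMem _).1 h1
  have h2 : ∀ v, v = v0 ∨ v ∈ Z → c ∉ p v := by
    intro v hv hcv
    apply hc
    rw [Set.mem_iUnion₂]
    refine ⟨p v, ?_, hcv⟩
    rw [hs, Finset.mem_image]
    refine ⟨v, ?_, rfl⟩
    rw [Finset.mem_insert, Set.Finite.mem_toFinset]
    exact hv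
  have hne : Φ c ≠ 0 := fun h0 => h2 v0 (Or.inl rfl) (Or.inl h0)
  refine ⟨Φ c, ⟨hne, fun v => (H.mem_sum c v).resolve_left hne⟩, fun v hv => ?_⟩
  have h3 := h2 v (Or.inr hv)
  have h4 := (H.mem_sum c v).resolve_left hne
  by_contra hne2
  exact h3 (Or.inr (lt_of_le_of_ne h4 (Ne.symm hne2)))

/-- There are not nine points of multiplicity `a / 3`. -/
theorem H2.BD.not9 (H : H2.BD ω x a h T w μ) : k ≠ 9 := by
  intro hk
  obtain ⟨y, hy, hyv⟩ := H.general H.fin_contr
  have h1 : T.clD (fun v => v.v y - μ v) = 0 := by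
    unfold PStr.clD
    refine (finsum_mem_congr rfl fun v hv => ?_).trans (finsum_mem_zero _)
    have h2 : v.v y = μ v := by
      by_contra hne
      exact hne (hyv v ⟨hv, H.contr9 hk hy hv hne⟩)
    show (v.v y - μ v) • T.cl v = 0
    rw [h2, sub_self, zero_smul]
  have h2 := H.cl hy.1
  rw [h1, smul_zero] at h2
  have h3 := congrArg Prod.fst h2
  simp only [KK, Prod.smul_fst, smul_eq_mul, Prod.fst_zero] at h3
  have h4 : (0 : ℤ) < a := by exact_mod_cast H.con.pos
  omega

end

end LCY
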